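import Mathlib

set_option autoImplicit false

open MeasureTheory Filter Topology Set
open scoped ENNReal ContDiff

namespace Pool.Agent.Work.MP_6d3bed_an

/-- bounds for the derivative of the smooth transition function -/
theorem exists_bound_smoothTransition : ∃ T' : ℝ → ℝ, ∃ C : ℝ, 0 ≤ C ∧
    (∀ y, HasDerivAt Real.smoothTransition (T' y) y) ∧ (∀ y, |T' y| ≤ C) ∧
    (∀ y, y < 0 → T' y = 0) ∧ (∀ y, 1 < y → T' y = 0) := by
  have hcd : ContDiff ℝ 1 Real.smoothTransition := Real.smoothTransition.contDiff (n := 1)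
  have hder : ∀ y, HasDerivAt Real.smoothTransition (deriv Real.smoothTransition y) y := fun y =>
    ((hcd.differentiable (by norm_num)) y).hasDerivAt
  have hcont : Continuous (deriv Real.smoothTransition) := hcd.continuous_deriv (by norm_num)
  have h0 : ∀ y, y < 0 → deriv Real.smoothTransition y = 0 := by
    intro y hy
    have : Real.smoothTransition =ᶠ[𝓝 y] fun _ => 0 := by
      filter_upwards [Iio_mem_nhds hy] with z hz
      exact Real.smoothTransition.zero_of_nonpos (le_of_lt hz)
    rw [this.deriv_eq]; simp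
  have h1 : ∀ y, 1 < y → deriv Real.smoothTransition y = 0 := by
    intro y hy
    have : Real.smoothTransition =ᶠ[𝓝 y] fun _ => 1 := by
      filter_upwards [Ioi_mem_nhds hy] with z hz
      exact Real.smoothTransition.one_of_one_le (le_of_lt hz)
    rw [this.deriv_eq]; simp
  obtain ⟨C, hC⟩ := (isCompact_Icc (a := (0 : ℝ)) (b := 1)).exists_bound_of_continuousOn
    hcont.continuousOn
  refine ⟨deriv Real.smoothTransition, max C 0, le_max_right _ _, hder, ?_, h0, h1⟩
  intro y
  rcases lt_or_ge y 0 with hy | hy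
  · rw [h0 y hy, abs_zero]; exact le_max_right _ _
  rcases lt_or_ge 1 y with hy1 | hy1
  · rw [h1 y hy1, abs_zero]; exact le_max_right _ _
  · exact (hC y ⟨hy, hy1⟩).trans (le_max_left _ _)

theorem exists_approx {L : ℝ} (hL : 0 < L) {U U1 : ℝ → ℝ} (hUc : ContinuousOn U (Icc (-L) L))
    (hU1c : ContinuousOn U1 (Icc (-L) L)) (hder : ∀ s ∈ Ioo (-L) L, HasDerivAt U (U1 s) s)
    (h0 : U (-L) = 0) (h1 : U L = 0) :
    ∃ ψ ψ' : ℕ → ℝ → ℝ, ∃ C : ℝ, (∀ n, ContDiff ℝ ∞ (ψ n)) ∧
      (∀ n s, HasDerivAt (ψ n) (ψ' n s) s) ∧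
      (∀ n, ∃ δ : ℝ, 0 < δ ∧ ∀ s, s ∉ Icc (-L + δ) (L - δ) → ψ n s = 0) ∧
      (∀ n, ∀ s ∈ Ioo (-L) L, |ψ n s| ≤ C ∧ |ψ' n s| ≤ C) ∧
      (∀ s ∈ Ioo (-L) L, Tendsto (fun n => ψ n s) atTop (𝓝 (U s)) ∧
        Tendsto (fun n => ψ' n s) atTop (𝓝 (U1 s))) := by
  obtain ⟨T', CT, hCT0, hT', hCT, hTl, hTr⟩ := exists_bound_smoothTransition
  -- polynomial approximations of `U1`
  have hq : ∀ n : ℕ, ∃ q : Polynomial ℝ, ∀ s ∈ Icc (-L) L, |q.eval s - U1 s| < 1 / ((n : ℝ) + 1) :=
    fun n => exists_polynomial_near_of_continuousOn (-L) L U1 hU1c _ (by positivity)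
  choose q hq using hq
  obtain ⟨M1, hM1⟩ := isCompact_Icc.exists_bound_of_continuousOn hU1c
  have hM1' : ∀ s ∈ Icc (-L) L, |U1 s| ≤ M1 := hM1
  have hM10 : 0 ≤ M1 := (abs_nonneg _).trans (hM1' 0 ⟨by linarith, hL.le⟩)
  have hint1 : ∀ a b : ℝ, a ∈ Icc (-L) L → b ∈ Icc (-L) L → IntervalIntegrable U1 volume a b := by
    intro a b ha hb
    apply ContinuousOn.intervalIntegrable
    exact hU1c.mono (uIcc_subset_Icc ha hb)
  have hFTC : ∀ s ∈ Icc (-L) L, ∫ t in (-L)..s, U1 t = U s := by
    intro s hs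
    rw [intervalIntegral.integral_eq_sub_of_hasDerivAt_of_le hs.1
      (hUc.mono (Icc_subset_Icc le_rfl hs.2)) (fun t ht => hder t ⟨ht.1, lt_of_lt_of_le ht.2 hs.2⟩)
      (hint1 _ _ ⟨le_rfl, by linarith⟩ hs), h0, sub_zero]
  have hFTC2 : ∀ s ∈ Icc (-L) L, ∫ t in s..L, U1 t = - U s := by
    intro s hs
    rw [intervalIntegral.integral_eq_sub_of_hasDerivAt_of_le hs.2
      (hUc.mono (Icc_subset_Icc hs.1 le_rfl)) (fun t ht => hder t ⟨lt_of_le_of_lt hs.1 ht.1, ht.2⟩)
      (hint1 _ _ hs ⟨by linarith, le_rfl⟩), h1, zero_sub]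
  have hUleft : ∀ s ∈ Icc (-L) L, |U s| ≤ M1 * (L + s) := by
    intro s hs
    rw [← hFTC s hs]
    have h := intervalIntegral.norm_integral_le_of_norm_le_const (a := -L) (b := s) (f := U1)
      (C := M1) (by
        intro t ht
        rw [uIoc_of_le hs.1] at ht
        exact hM1' t ⟨ht.1.le, ht.2.trans hs.2⟩)
    rw [abs_of_nonneg (by linarith [hs.1] : (0 : ℝ) ≤ s - -L)] at h
    calc |∫ t in (-L)..s, U1 t| ≤ M1 * (s - -L) := h
      _ = M1 * (L + s) := by ring
  have hUright : ∀ s ∈ Icc (-L) L, |U s| ≤ M1 * (L - s) := by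
    intro s hs
    rw [← abs_neg, ← hFTC2 s hs]
    have h := intervalIntegral.norm_integral_le_of_norm_le_const (a := s) (b := L) (f := U1)
      (C := M1) (by
        intro t ht
        rw [uIoc_of_le hs.2] at ht
        exact hM1' t ⟨(hs.1.trans_lt ht.1).le, ht.2⟩)
    rw [abs_of_nonneg (by linarith [hs.2] : (0 : ℝ) ≤ L - s)] at h
    exact h
  -- primitives
  set P : ℕ → ℝ → ℝ := fun n s => ∫ t in (-L)..s, (q n).eval t with hP
  have hPd : ∀ n s, HasDerivAt (P n) ((q n).eval s) s := by
    intro n s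
    exact ((q n).continuous.integral_hasStrictDerivAt (-L) s).hasDerivAt
  have hPs : ∀ n, ContDiff ℝ ∞ (P n) := by
    intro n
    rw [contDiff_infty_iff_deriv]
    refine ⟨fun s => (hPd n s).differentiableAt, ?_⟩
    have : deriv (P n) = fun s => (q n).eval s := funext fun s => (hPd n s).deriv
    rw [this]
    have e : (fun s => (q n).eval s) = fun s => Polynomial.aeval s (q n) := by
      funext s; rw [Polynomial.coe_aeval_eq_eval]
    rw [e]
    exact (q n).contDiff_aeval _
  have hPU : ∀ n, ∀ s ∈ Icc (-L) L, |P n s - U s| ≤ 2 * L / ((n : ℝ) + 1) := by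
    intro n s hs
    have e : P n s - U s = ∫ t in (-L)..s, ((q n).eval t - U1 t) := by
      rw [intervalIntegral.integral_sub ((q n).continuous.intervalIntegrable _ _)
        (hint1 _ _ ⟨le_rfl, by linarith⟩ hs), hFTC s hs]
    rw [e]
    have h := intervalIntegral.norm_integral_le_of_norm_le_const (a := -L) (b := s)
      (f := fun t => (q n).eval t - U1 t) (C := 1 / ((n : ℝ) + 1)) (by
        intro t ht
        rw [uIoc_of_le hs.1] at ht
        exact (hq n t ⟨ht.1.le, ht.2.trans hs.2⟩).le)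
    rw [abs_of_nonneg (by linarith [hs.1] : (0 : ℝ) ≤ s - -L)] at h
    calc |∫ t in (-L)..s, ((q n).eval t - U1 t)| ≤ 1 / ((n : ℝ) + 1) * (s - -L) := h
      _ ≤ 1 / ((n : ℝ) + 1) * (2 * L) := by
          apply mul_le_mul_of_nonneg_left _ (by positivity)
          linarith [hs.2]
      _ = 2 * L / ((n : ℝ) + 1) := by ring
  -- cutoff
  set A : ℕ → ℝ → ℝ := fun n s => ((n : ℝ) + 1) * (L - s) - 1 with hA
  set B : ℕ → ℝ → ℝ := fun n s => ((n : ℝ) + 1) * (L + s) - 1 with hB
  set T := Real.smoothTransition with hT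
  have hTs : ContDiff ℝ ∞ T := Real.smoothTransition.contDiff
  have hAd : ∀ n s, HasDerivAt (fun s => T (A n s)) (-(((n : ℝ) + 1) * T' (A n s))) s := by
    intro n s
    have h2 : HasDerivAt (A n) (-((n : ℝ) + 1)) s := by
      have := (((hasDerivAt_id' s).const_sub L).const_mul ((n : ℝ) + 1)).sub_const 1
      exact this.congr_deriv (by ring)
    exact ((hT' (A n s)).comp s h2).congr_deriv (by ring)
  have hBd : ∀ n s, HasDerivAt (fun s => T (B n s)) (((n : ℝ) + 1) * T' (B n s)) s := by
    intro n s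
    have h2 : HasDerivAt (B n) ((n : ℝ) + 1) s := by
      have := (((hasDerivAt_id' s).const_add L).const_mul ((n : ℝ) + 1)).sub_const 1
      exact this.congr_deriv (by ring)
    exact ((hT' (B n s)).comp s h2).congr_deriv (by ring)
  set ψ : ℕ → ℝ → ℝ := fun n s => T (A n s) * T (B n s) * P n s with hψ
  set ψ' : ℕ → ℝ → ℝ := fun n s =>
    (-(((n : ℝ) + 1) * T' (A n s)) * T (B n s) + T (A n s) * (((n : ℝ) + 1) * T' (B n s))) * P n s +
      T (A n s) * T (B n s) * (q n).eval s with hψ'
  have hT01 : ∀ y, 0 ≤ T y ∧ T y ≤ 1 := fun y =>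
    ⟨Real.smoothTransition.nonneg y, Real.smoothTransition.le_one y⟩
  have hnpos : ∀ n : ℕ, (0 : ℝ) < (n : ℝ) + 1 := fun n => by positivity
  have hn1 : ∀ n : ℕ, (1 : ℝ) ≤ (n : ℝ) + 1 := fun n => by
    have : (0 : ℝ) ≤ n := Nat.cast_nonneg n
    linarith
  refine ⟨ψ, ψ', 2 * CT * (2 * M1 + 2 * L) + (M1 + 1) + (M1 * (2 * L) + 2 * L), ?_, ?_, ?_, ?_, ?_⟩
  · intro n
    have hAs : ContDiff ℝ ∞ (A n) := by
      simp only [hA]; fun_prop
    have hBs : ContDiff ℝ ∞ (B n) := by
      simp only [hB]; fun_prop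
    exact ((hTs.comp hAs).mul (hTs.comp hBs)).mul (hPs n)
  · intro n s
    exact ((hAd n s).mul (hBd n s)).mul (hPd n s)
  · intro n
    refine ⟨1 / ((n : ℝ) + 1), by positivity, ?_⟩
    intro s hs
    rw [mem_Icc, not_and_or, not_le, not_le] at hs
    simp only [hψ]
    rcases hs with hs | hs
    · have : B n s ≤ 0 := by
        simp only [hB]
        have h3 : L + s < 1 / ((n : ℝ) + 1) := by linarith
        rw [lt_div_iff₀ (hnpos n)] at h3
        nlinarith
      rw [hT, Real.smoothTransition.zero_of_nonpos this]; ring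
    · have : A n s ≤ 0 := by
        simp only [hA]
        have h3 : L - s < 1 / ((n : ℝ) + 1) := by linarith
        rw [lt_div_iff₀ (hnpos n)] at h3
        nlinarith
      rw [hT, Real.smoothTransition.zero_of_nonpos this]; ring
  · intro n s hs
    have hsI : s ∈ Icc (-L) L := ⟨hs.1.le, hs.2.le⟩
    have hTA := hT01 (A n s)
    have hTB := hT01 (B n s)
    have hPb : |P n s| ≤ M1 * (2 * L) + 2 * L := by
      have h3 := hPU n s hsI
      have h4 := hUleft s hsI
      have h5 : 2 * L / ((n : ℝ) + 1) ≤ 2 * L := div_le_self (by linarith) (hn1 n)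
      have h6 : |P n s| ≤ |P n s - U s| + |U s| := by
        have := abs_add_le (P n s - U s) (U s)
        simpa using this
      have h7 : M1 * (L + s) ≤ M1 * (2 * L) := mul_le_mul_of_nonneg_left (by linarith [hs.2]) hM10
      linarith
    have hTT : |T (A n s) * T (B n s)| ≤ 1 := by
      rw [abs_of_nonneg (mul_nonneg hTA.1 hTB.1)]
      nlinarith [hTA.1, hTA.2, hTB.1, hTB.2]
    have hC1 : 0 ≤ 2 * CT * (2 * M1 + 2 * L) := by positivity
    constructor
    · have : |ψ n s| ≤ |P n s| := by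
        simp only [hψ, abs_mul (T (A n s) * T (B n s))]
        calc |T (A n s) * T (B n s)| * |P n s| ≤ 1 * |P n s| :=
              mul_le_mul_of_nonneg_right hTT (abs_nonneg _)
          _ = |P n s| := one_mul _
      linarith
    · have hqb : |(q n).eval s| ≤ M1 + 1 := by
        have h3 := hq n s hsI
        have h4 := hM1' s hsI
        have h5 : 1 / ((n : ℝ) + 1) ≤ 1 := by
          rw [div_le_one (hnpos n)]; exact hn1 n
        have h6 : |(q n).eval s| ≤ |(q n).eval s - U1 s| + |U1 s| := by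
          have := abs_add_le ((q n).eval s - U1 s) (U1 s)
          simpa using this
        linarith
      -- left cutoff
      have hPsmall : ∀ d : ℝ, 0 ≤ d → |U s| ≤ M1 * d → ((n : ℝ) + 1) * d ≤ 2 →
          ((n : ℝ) + 1) * |P n s| ≤ 2 * M1 + 2 * L := by
        intro d hd hU hd2
        have h3 := hPU n s hsI
        have h6 : |P n s| ≤ |P n s - U s| + |U s| := by
          have := abs_add_le (P n s - U s) (U s)
          simpa using this
        have h7 : |P n s| ≤ 2 * L / ((n : ℝ) + 1) + M1 * d := by linarith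
        calc ((n : ℝ) + 1) * |P n s| ≤ ((n : ℝ) + 1) * (2 * L / ((n : ℝ) + 1) + M1 * d) :=
              mul_le_mul_of_nonneg_left h7 (hnpos n).le
          _ = 2 * L + M1 * (((n : ℝ) + 1) * d) := by
              have := (hnpos n).ne'
              field_simp
          _ ≤ 2 * L + M1 * 2 := by
              have := mul_le_mul_of_nonneg_left hd2 hM10
              linarith
          _ = 2 * M1 + 2 * L := by ring
      have hcA : |((n : ℝ) + 1) * T' (A n s)| * |P n s| ≤ CT * (2 * M1 + 2 * L) := by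
        by_cases hA1 : 1 < A n s
        · rw [hTr _ hA1, mul_zero, abs_zero, zero_mul]; positivity
        · push Not at hA1
          have h3 : ((n : ℝ) + 1) * (L - s) ≤ 2 := by simp only [hA] at hA1; linarith
          have h4 := hPsmall (L - s) (by linarith [hs.2]) (hUright s hsI) h3
          rw [abs_mul, abs_of_pos (hnpos n)]
          calc ((n : ℝ) + 1) * |T' (A n s)| * |P n s| = |T' (A n s)| * (((n : ℝ) + 1) * |P n s|) := by ring
            _ ≤ CT * (2 * M1 + 2 * L) := mul_le_mul (hCT _) h4 (by positivity) hCT0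
      have hcB : |((n : ℝ) + 1) * T' (B n s)| * |P n s| ≤ CT * (2 * M1 + 2 * L) := by
        by_cases hB1 : 1 < B n s
        · rw [hTr _ hB1, mul_zero, abs_zero, zero_mul]; positivity
        · push Not at hB1
          have h3 : ((n : ℝ) + 1) * (L + s) ≤ 2 := by simp only [hB] at hB1; linarith
          have h4 := hPsmall (L + s) (by linarith [hs.1]) (hUleft s hsI) h3
          rw [abs_mul, abs_of_pos (hnpos n)]
          calc ((n : ℝ) + 1) * |T' (B n s)| * |P n s| = |T' (B n s)| * (((n : ℝ) + 1) * |P n s|) := by ring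
            _ ≤ CT * (2 * M1 + 2 * L) := mul_le_mul (hCT _) h4 (by positivity) hCT0
      have h8 : |ψ' n s| ≤ |((n : ℝ) + 1) * T' (A n s)| * |P n s| +
          |((n : ℝ) + 1) * T' (B n s)| * |P n s| + |(q n).eval s| := by
        have e : ψ' n s = -(((n : ℝ) + 1) * T' (A n s) * P n s * T (B n s)) +
            (((n : ℝ) + 1) * T' (B n s) * P n s * T (A n s)) +
              T (A n s) * T (B n s) * (q n).eval s := by
          simp only [hψ']; ring
        rw [e]
        have g1 : |-(((n : ℝ) + 1) * T' (A n s) * P n s * T (B n s))| ≤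
            |((n : ℝ) + 1) * T' (A n s)| * |P n s| := by
          rw [abs_neg, abs_mul, abs_mul, abs_of_nonneg hTB.1]
          exact mul_le_of_le_one_right (by positivity) hTB.2
        have g2 : |((n : ℝ) + 1) * T' (B n s) * P n s * T (A n s)| ≤
            |((n : ℝ) + 1) * T' (B n s)| * |P n s| := by
          rw [abs_mul, abs_mul, abs_of_nonneg hTA.1]
          exact mul_le_of_le_one_right (by positivity) hTA.2
        have g3 : |T (A n s) * T (B n s) * (q n).eval s| ≤ |(q n).eval s| := by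
          rw [abs_mul]
          exact mul_le_of_le_one_left (abs_nonneg _) hTT
        exact (abs_add_three _ _ _).trans (by linarith)
      have h9 : 0 ≤ M1 * (2 * L) + 2 * L := by positivity
      linarith
  · intro s hs
    have hsI : s ∈ Icc (-L) L := ⟨hs.1.le, hs.2.le⟩
    have hinv : Tendsto (fun n : ℕ => 1 / ((n : ℝ) + 1)) atTop (𝓝 0) :=
      tendsto_one_div_add_atTop_nhds_zero_nat
    have hPt : Tendsto (fun n => P n s) atTop (𝓝 (U s)) := by
      rw [tendsto_iff_norm_sub_tendsto_zero]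
      refine squeeze_zero (fun n => norm_nonneg _) (fun n => hPU n s hsI) ?_
      have := hinv.const_mul (2 * L)
      simpa [div_eq_mul_inv] using this
    have hqt : Tendsto (fun n => (q n).eval s) atTop (𝓝 (U1 s)) := by
      rw [tendsto_iff_norm_sub_tendsto_zero]
      exact squeeze_zero (fun n => norm_nonneg _) (fun n => (hq n s hsI).le) hinv
    have hbig : ∀ d : ℝ, 0 < d → ∀ᶠ n : ℕ in atTop, 1 < ((n : ℝ) + 1) * d - 1 := by
      intro d hd
      have h3 : Tendsto (fun n : ℕ => ((n : ℝ) + 1) * d - 1) atTop atTop := by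
        apply tendsto_atTop_add_const_right
        apply Tendsto.atTop_mul_const hd
        exact tendsto_atTop_add_const_right _ _ tendsto_natCast_atTop_atTop
      exact h3.eventually_gt_atTop 1
    have hA1 := hbig (L - s) (by linarith [hs.2])
    have hB1 := hbig (L + s) (by linarith [hs.1])
    constructor
    · refine hPt.congr' ?_
      filter_upwards [hA1, hB1] with n h3 h4
      simp only [hψ]
      rw [hT, Real.smoothTransition.one_of_one_le h3.le, Real.smoothTransition.one_of_one_le h4.le]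
      ring
    · refine hqt.congr' ?_
      filter_upwards [hA1, hB1] with n h3 h4
      have h5 : T' (A n s) = 0 := hTr _ h3
      have h6 : T' (B n s) = 0 := hTr _ h4
      simp only [hψ', h5, h6]
      rw [hT, Real.smoothTransition.one_of_one_le h3.le, Real.smoothTransition.one_of_one_le h4.le]
      ring

end Pool.Agent.Work.MP_6d3bed_an
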