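import Mathlib

set_option autoImplicit false

open MeasureTheory Filter Topology
open scoped ENNReal ContDiff

namespace Pool.Agent.Work.MP_6d3bed_an

/-- The Euclidean plane. -/
abbrev Plane := EuclideanSpace ℝ (Fin 2)

/-- The open annulus `exp (-L) < |x| < exp L` in the plane. -/
def ann (L : ℝ) : Set Plane := {x | Real.exp (-L) < ‖x‖ ∧ ‖x‖ < Real.exp L}

/-- `IsH10 Ω u G`: the function `u` belongs to `H^1_0(Ω)` and `G` is its weak gradient, i.e.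
`(u, G)` is the limit in `L^2(Ω)` of `(φ_n, ∇ φ_n)` for smooth functions `φ_n` with compact
support in `Ω`. -/
def IsH10 (Ω : Set Plane) (u : Plane → ℝ) (G : Plane → Plane) : Prop :=
  MemLp u 2 (volume.restrict Ω) ∧ MemLp G 2 (volume.restrict Ω) ∧
    ∃ φ : ℕ → Plane → ℝ,
      (∀ n, ContDiff ℝ ∞ (φ n) ∧ HasCompactSupport (φ n) ∧ tsupport (φ n) ⊆ Ω) ∧
      Tendsto (fun n => eLpNorm (fun x => φ n x - u x) 2 (volume.restrict Ω)) atTop (𝓝 0) ∧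
      Tendsto (fun n => eLpNorm (fun x => gradient (φ n) x - G x) 2 (volume.restrict Ω))
        atTop (𝓝 0)

/-- `u ∈ L^∞(Ω)` (for a function known to be measurable). -/
def EssBdd (Ω : Set Plane) (u : Plane → ℝ) : Prop :=
  ∃ M : ℝ, ∀ᵐ x ∂(volume.restrict Ω), |u x| ≤ M

/-- `u ∈ H^1_0(Ω) ∩ L^∞(Ω)` is a weak solution of `-Δu = lam c u + μ |∇u|^2 + h` in `Ω`. -/
def IsSolution (Ω : Set Plane) (c h μ : Plane → ℝ) (lam : ℝ) (u : Plane → ℝ) : Prop :=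
  EssBdd Ω u ∧ ∃ G : Plane → Plane, IsH10 Ω u G ∧
    ∀ (v : Plane → ℝ) (Gv : Plane → Plane), IsH10 Ω v Gv → EssBdd Ω v →
      ∫ x in Ω, inner ℝ (G x) (Gv x) =
        lam * (∫ x in Ω, c x * u x * v x) + (∫ x in Ω, μ x * ‖G x‖ ^ 2 * v x) +
          ∫ x in Ω, h x * v x

/-- The integrability and sign conditions of assumption (A) on `c, h, μ` (in dimension `2`). -/
def AssumptionA (Ω : Set Plane) (c h μ : Plane → ℝ) : Prop :=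
  (∃ p : ℝ≥0∞, 2 < p ∧ MemLp c p (volume.restrict Ω) ∧ MemLp h p (volume.restrict Ω)) ∧
    (∀ᵐ x ∂(volume.restrict Ω), 0 ≤ c x) ∧ ¬ (∀ᵐ x ∂(volume.restrict Ω), c x = 0) ∧
    AEStronglyMeasurable μ (volume.restrict Ω) ∧
    ∃ μ₁ μ₂ : ℝ, 0 < μ₁ ∧ ∀ᵐ x ∂(volume.restrict Ω), μ₁ ≤ μ x ∧ μ x ≤ μ₂

/-- Hypothesis (H1): `(P_0)` has a solution `u₀ ≥ 0` with `c u₀ ≥ 0` not identically zero. -/
def HypH1 (Ω : Set Plane) (c h μ : Plane → ℝ) : Prop :=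
  ∃ u₀ : Plane → ℝ, IsSolution Ω c h μ 0 u₀ ∧ (∀ᵐ x ∂(volume.restrict Ω), 0 ≤ u₀ x) ∧
    ¬ (∀ᵐ x ∂(volume.restrict Ω), c x * u₀ x = 0)

/-- The first eigenvalue `γ₁` of `-Δφ = γ c φ` in `H^1_0(Ω)`, by its Rayleigh quotient. -/
noncomputable def gamma1 (Ω : Set Plane) (c : Plane → ℝ) : ℝ :=
  sInf {t : ℝ | ∃ (v : Plane → ℝ) (Gv : Plane → Plane), IsH10 Ω v Gv ∧
    0 < ∫ x in Ω, c x * v x ^ 2 ∧ t = (∫ x in Ω, ‖Gv x‖ ^ 2) / ∫ x in Ω, c x * v x ^ 2}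

/-- `γ` is an eigenvalue of `-Δφ = γ c φ`, `φ ∈ H^1_0(Ω)`, with a positive eigenfunction. -/
def IsPrincipalEigenvalue (Ω : Set Plane) (c : Plane → ℝ) (γ : ℝ) : Prop :=
  ∃ (φ : Plane → ℝ) (Gφ : Plane → Plane), IsH10 Ω φ Gφ ∧
    (∀ᵐ x ∂(volume.restrict Ω), 0 < φ x) ∧
    ∀ (v : Plane → ℝ) (Gv : Plane → Plane), IsH10 Ω v Gv →
      ∫ x in Ω, inner ℝ (Gφ x) (Gv x) = γ * ∫ x in Ω, c x * φ x * v x

end Pool.Agent.Work.MP_6d3bed_an
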