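import Mathlib
import Pool.Agent.Work.MP_6d3bed_an.Defs

set_option autoImplicit false

open MeasureTheory Filter Topology Set
open scoped ENNReal ContDiff

namespace Pool.Agent.Work.MP_6d3bed_an

theorem isOpen_ann (L : ℝ) : IsOpen (ann L) := by
  unfold ann
  exact (isOpen_lt continuous_const continuous_norm).inter
    (isOpen_lt continuous_norm continuous_const)

theorem ne_zero_of_mem_ann {L : ℝ} {x : Plane} (hx : x ∈ ann L) : x ≠ 0 := by
  rintro rfl
  have := hx.1
  rw [norm_zero] at this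
  exact absurd this (not_lt.2 (Real.exp_pos _).le)

theorem log_mem_of_mem_ann {L : ℝ} {x : Plane} (hx : x ∈ ann L) :
    Real.log ‖x‖ ∈ Ioo (-L) L := by
  have h0 : 0 < ‖x‖ := norm_pos_iff.2 (ne_zero_of_mem_ann hx)
  exact ⟨(Real.lt_log_iff_exp_lt h0).2 hx.1, (Real.log_lt_iff_lt_exp h0).2 hx.2⟩

theorem mem_ann_iff {L : ℝ} {x : Plane} : x ∈ ann L ↔ x ≠ 0 ∧ Real.log ‖x‖ ∈ Ioo (-L) L := by
  constructor
  · exact fun h => ⟨ne_zero_of_mem_ann h, log_mem_of_mem_ann h⟩
  · rintro ⟨h0, h1, h2⟩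
    have h3 : 0 < ‖x‖ := norm_pos_iff.2 h0
    exact ⟨(Real.lt_log_iff_exp_lt h3).1 h1, (Real.log_lt_iff_lt_exp h3).1 h2⟩

theorem measure_ann_lt_top (L : ℝ) : volume (ann L) < ⊤ := by
  have hsub : ann L ⊆ Metric.ball (0 : Plane) (Real.exp L) := by
    intro x hx
    rw [mem_ball_zero_iff]; exact hx.2
  exact lt_of_le_of_lt (measure_mono hsub) measure_ball_lt_top

instance (L : ℝ) : IsFiniteMeasure (volume.restrict (ann L)) := by
  constructor
  rw [Measure.restrict_apply_univ]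
  exact measure_ann_lt_top L

/-- radial function in logarithmic coordinates -/
noncomputable def rad (U : ℝ → ℝ) (x : Plane) : ℝ := U (Real.log ‖x‖)

/-- its gradient -/
noncomputable def radG (U1 : ℝ → ℝ) (x : Plane) : Plane := (U1 (Real.log ‖x‖) / ‖x‖ ^ 2) • x

theorem hasFDerivAt_log_norm {x : Plane} (hx : x ≠ 0) :
    HasFDerivAt (fun y : Plane => Real.log ‖y‖) ((‖x‖ ^ 2)⁻¹ • innerSL ℝ x) x := by
  have h1 : HasFDerivAt (fun y : Plane => ‖y‖ ^ 2) (2 • innerSL ℝ x) x :=
    (hasStrictFDerivAt_norm_sq x).hasFDerivAt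
  have h0 : ‖x‖ ^ 2 ≠ 0 := by
    have := norm_pos_iff.2 hx
    positivity
  have h2 : HasFDerivAt (fun y : Plane => Real.log (‖y‖ ^ 2)) ((‖x‖ ^ 2)⁻¹ • (2 • innerSL ℝ x)) x :=
    h1.log h0
  have h3 : (fun y : Plane => Real.log ‖y‖) = fun y : Plane => (1 / 2 : ℝ) * Real.log (‖y‖ ^ 2) := by
    funext y
    rw [Real.log_pow]; push_cast; ring
  rw [h3]
  refine (h2.const_mul (1 / 2 : ℝ)).congr_fderiv ?_
  ext y
  simp
  ring

theorem hasFDerivAt_rad {U : ℝ → ℝ} {u1 : ℝ} {x : Plane} (hx : x ≠ 0)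
    (hU : HasDerivAt U u1 (Real.log ‖x‖)) :
    HasFDerivAt (rad U) ((u1 / ‖x‖ ^ 2) • innerSL ℝ x) x := by
  refine (hU.comp_hasFDerivAt x (hasFDerivAt_log_norm hx)).congr_fderiv ?_
  ext y
  simp
  ring

theorem continuousAt_log_norm {x : Plane} (hx : x ≠ 0) :
    ContinuousAt (fun y : Plane => Real.log ‖y‖) x := (hasFDerivAt_log_norm hx).continuousAt

theorem continuousOn_rad {U : ℝ → ℝ} {L : ℝ} (hU : ContinuousOn U (Ioo (-L) L)) :
    ContinuousOn (rad U) (ann L) := by
  intro x hx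
  have h1 : ContinuousAt U (Real.log ‖x‖) :=
    hU.continuousAt (isOpen_Ioo.mem_nhds (log_mem_of_mem_ann hx))
  have h2 : ContinuousAt (rad U) x :=
    ContinuousAt.comp (f := fun y : Plane => Real.log ‖y‖) h1
      (continuousAt_log_norm (ne_zero_of_mem_ann hx))
  exact h2.continuousWithinAt

theorem continuousOn_radG {U : ℝ → ℝ} {L : ℝ} (hU : ContinuousOn U (Ioo (-L) L)) :
    ContinuousOn (radG U) (ann L) := by
  have h1 := continuousOn_rad hU
  have h2 : ContinuousOn (fun x : Plane => U (Real.log ‖x‖) / ‖x‖ ^ 2) (ann L) := by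
    apply ContinuousOn.div h1 (by fun_prop)
    intro x hx
    have := norm_pos_iff.2 (ne_zero_of_mem_ann hx)
    positivity
  have h3 : ContinuousOn (fun x : Plane => x) (ann L) := continuousOn_id
  exact h2.smul h3

theorem integrable_of_tsupport {F : Type*} [NormedAddCommGroup F] {L : ℝ} {g : Plane → F}
    {K : Set Plane} (hK : IsCompact K) (hKL : K ⊆ ann L) (hg : ContinuousOn g (ann L))
    (hsupp : ∀ x, x ∉ K → g x = 0) : Integrable g volume := by
  have h1 : IntegrableOn g K volume := (hg.mono hKL).integrableOn_compact hK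
  rwa [integrableOn_iff_integrable_of_support_subset] at h1
  intro x hx
  by_contra hxK
  exact hx (hsupp x hxK)

/-- one coordinate of the divergence computation -/
theorem hasFDerivAt_radG_coord {U1 : ℝ → ℝ} {u2 : ℝ} {x : Plane} (hx : x ≠ 0)
    (hU : HasDerivAt U1 u2 (Real.log ‖x‖)) (i : Fin 2) :
    ∃ A : Plane →L[ℝ] ℝ, HasFDerivAt (fun y : Plane => (U1 (Real.log ‖y‖) / ‖y‖ ^ 2) * y i) A x ∧
      A (EuclideanSpace.single i 1) =
        u2 * x i ^ 2 / ‖x‖ ^ 4 - 2 * U1 (Real.log ‖x‖) * x i ^ 2 / ‖x‖ ^ 4 +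
          U1 (Real.log ‖x‖) / ‖x‖ ^ 2 := by
  have hn : ‖x‖ ≠ 0 := norm_ne_zero_iff.2 hx
  have h0 : ‖x‖ ^ 2 ≠ 0 := pow_ne_zero 2 hn
  have h1 : HasFDerivAt (fun y : Plane => U1 (Real.log ‖y‖)) ((u2 / ‖x‖ ^ 2) • innerSL ℝ x) x :=
    hasFDerivAt_rad hx hU
  have h2 : HasFDerivAt (fun y : Plane => ‖y‖ ^ 2) (2 • innerSL ℝ x) x :=
    (hasStrictFDerivAt_norm_sq x).hasFDerivAt
  have h3 : HasFDerivAt (fun y : Plane => y i) (EuclideanSpace.proj i : Plane →L[ℝ] ℝ) x :=
    (EuclideanSpace.proj i : Plane →L[ℝ] ℝ).hasFDerivAt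
  have h2' : HasFDerivAt (fun y : Plane => (‖y‖ ^ 2)⁻¹)
      ((-((‖x‖ ^ 2) ^ 2)⁻¹) • (2 • innerSL ℝ x)) x :=
    (hasDerivAt_inv h0).comp_hasFDerivAt x h2
  have h4 := (h1.fun_mul h2').fun_mul h3
  have e1 : (EuclideanSpace.proj i : Plane →L[ℝ] ℝ) (EuclideanSpace.single i 1) = 1 := by simp
  have e2 : (innerSL ℝ x) (EuclideanSpace.single i 1) = x i := by
    rw [innerSL_apply_apply, EuclideanSpace.inner_single_right]; simp
  refine ⟨_, h4, ?_⟩
  simp only [add_apply, smul_apply, smul_eq_mul, e1, e2, nsmul_eq_mul]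
  field_simp
  push_cast
  ring

theorem norm_sq_eq (x : Plane) : ‖x‖ ^ 2 = x 0 ^ 2 + x 1 ^ 2 := by
  rw [EuclideanSpace.norm_sq_eq]
  simp [Fin.sum_univ_two]

theorem inner_eq (x y : Plane) : inner ℝ x y = x 0 * y 0 + x 1 * y 1 := by
  rw [PiLp.inner_apply]
  simp [Fin.sum_univ_two]
  ring

theorem gradient_coord {w : Plane → ℝ} {x : Plane} (i : Fin 2) :
    (gradient w x) i = fderiv ℝ w x (EuclideanSpace.single i 1) := by
  rw [← inner_gradient_left, EuclideanSpace.inner_single_right]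
  simp

/-- the weak formulation against `C^1` functions with compact support -/
theorem weak_testfn {L : ℝ} {U1 U2 : ℝ → ℝ} (hU : ∀ s ∈ Ioo (-L) L, HasDerivAt U1 (U2 s) s)
    (hU2 : ContinuousOn U2 (Ioo (-L) L)) {w : Plane → ℝ} (hw : ContDiff ℝ 1 w)
    (hc : HasCompactSupport w) (hs : tsupport w ⊆ ann L) :
    ∫ x in ann L, inner ℝ (radG U1 x) (gradient w x) =
      ∫ x in ann L, (-(U2 (Real.log ‖x‖) / ‖x‖ ^ 2)) * w x := by
  have hU1c : ContinuousOn U1 (Ioo (-L) L) := fun s hs => (hU s hs).continuousAt.continuousWithinAt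
  have hw0 : ∀ x, x ∉ tsupport w → w x = 0 := fun x hx => image_eq_zero_of_notMem_tsupport hx
  have hdw0 : ∀ x, x ∉ tsupport w → fderiv ℝ w x = 0 := by
    intro x hx
    have : w =ᶠ[𝓝 x] fun _ => 0 := notMem_tsupport_iff_eventuallyEq.1 hx
    rw [this.fderiv_eq]; simp
  have hdwc : Continuous (fun x => fderiv ℝ w x) := hw.continuous_fderiv (by norm_num)
  set f : Fin 2 → Plane → ℝ := fun i x => (U1 (Real.log ‖x‖) / ‖x‖ ^ 2) * x i with hf
  set D : Fin 2 → Plane → ℝ := fun i x => U2 (Real.log ‖x‖) * x i ^ 2 / ‖x‖ ^ 4 -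
    2 * U1 (Real.log ‖x‖) * x i ^ 2 / ‖x‖ ^ 4 + U1 (Real.log ‖x‖) / ‖x‖ ^ 2 with hD
  have hnorm : ∀ x ∈ ann L, ‖x‖ ≠ 0 := fun x hx => norm_ne_zero_iff.2 (ne_zero_of_mem_ann hx)
  have hcU1 : ContinuousOn (fun x : Plane => U1 (Real.log ‖x‖)) (ann L) := continuousOn_rad hU1c
  have hcU2 : ContinuousOn (fun x : Plane => U2 (Real.log ‖x‖)) (ann L) := continuousOn_rad hU2
  have hfc : ∀ i, ContinuousOn (f i) (ann L) := by
    intro i
    apply ContinuousOn.mul
    · exact hcU1.div (by fun_prop) (fun x hx => pow_ne_zero 2 (hnorm x hx))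
    · fun_prop
  have hDc : ∀ i, ContinuousOn (D i) (ann L) := by
    intro i
    apply ContinuousOn.add
    · apply ContinuousOn.sub
      · exact (hcU2.mul (by fun_prop)).div (by fun_prop) (fun x hx => pow_ne_zero 4 (hnorm x hx))
      · exact ((continuousOn_const.mul hcU1).mul (by fun_prop)).div (by fun_prop)
          (fun x hx => pow_ne_zero 4 (hnorm x hx))
    · exact hcU1.div (by fun_prop) (fun x hx => pow_ne_zero 2 (hnorm x hx))
  have hwc : ContinuousOn w (ann L) := hw.continuous.continuousOn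
  have hibp : ∀ i : Fin 2, Integrable (fun x => f i x * fderiv ℝ w x (EuclideanSpace.single i 1)) ∧
      Integrable (fun x => D i x * w x) ∧
      ∫ x, f i x * fderiv ℝ w x (EuclideanSpace.single i 1) = -∫ x, D i x * w x := by
    intro i
    have i1 : Integrable (fun x => f i x * fderiv ℝ w x (EuclideanSpace.single i 1)) := by
      apply integrable_of_tsupport hc hs
      · apply (hfc i).mul
        exact (hdwc.clm_apply continuous_const).continuousOn
      · intro x hx
        rw [hdw0 x hx]; simp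
    have i2 : Integrable (fun x => D i x * w x) := by
      apply integrable_of_tsupport hc hs ((hDc i).mul hwc)
      intro x hx
      change D i x * w x = 0
      rw [hw0 x hx, mul_zero]
    have i3 : Integrable (fun x => f i x * w x) := by
      apply integrable_of_tsupport hc hs ((hfc i).mul hwc)
      intro x hx
      change f i x * w x = 0
      rw [hw0 x hx, mul_zero]
    refine ⟨i1, i2, ?_⟩
    exact integral_bilinear_hasLineDerivAt_right_eq_neg_left_of_integrable
      (f := f i) (f' := D i) (g := w) (g' := fun x => fderiv ℝ w x (EuclideanSpace.single i 1))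
      (v := EuclideanSpace.single i 1) (B := ContinuousLinearMap.mul ℝ ℝ) i2 i1 i3
      (by
        intro x hx
        have hxL := hs hx
        obtain ⟨A, hA, hAe⟩ := hasFDerivAt_radG_coord (ne_zero_of_mem_ann hxL)
          (hU _ (log_mem_of_mem_ann hxL)) i
        have h5 := hA.hasLineDerivAt (EuclideanSpace.single i 1)
        rw [hAe] at h5
        exact h5)
      (fun x _ => ((hw.differentiable (by norm_num)) x).hasFDerivAt.hasLineDerivAt _)
  have hL1 : ∫ x in ann L, inner ℝ (radG U1 x) (gradient w x) =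
      ∫ x, inner ℝ (radG U1 x) (gradient w x) := by
    apply setIntegral_eq_integral_of_forall_compl_eq_zero
    intro x hx
    have : x ∉ tsupport w := fun h => hx (hs h)
    rw [real_inner_comm, inner_gradient_left, hdw0 x this]; simp
  have hL2 : ∫ x in ann L, (-(U2 (Real.log ‖x‖) / ‖x‖ ^ 2)) * w x =
      ∫ x, (-(U2 (Real.log ‖x‖) / ‖x‖ ^ 2)) * w x := by
    apply setIntegral_eq_integral_of_forall_compl_eq_zero
    intro x hx
    have : x ∉ tsupport w := fun h => hx (hs h)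
    rw [hw0 x this, mul_zero]
  rw [hL1, hL2]
  have e1 : (fun x => inner ℝ (radG U1 x) (gradient w x)) = fun x =>
      f 0 x * fderiv ℝ w x (EuclideanSpace.single 0 1) +
        f 1 x * fderiv ℝ w x (EuclideanSpace.single 1 1) := by
    funext x
    rw [inner_eq, gradient_coord, gradient_coord]
    simp only [hf, radG, PiLp.smul_apply, smul_eq_mul]
  have e2 : ∀ x, (-(U2 (Real.log ‖x‖) / ‖x‖ ^ 2)) * w x = -(D 0 x * w x) + -(D 1 x * w x) := by
    intro x
    by_cases hx : x ∈ tsupport w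
    · have hn := hnorm x (hs hx)
      have h6 := norm_sq_eq x
      simp only [hD]
      have h7 : x 1 ^ 2 = ‖x‖ ^ 2 - x 0 ^ 2 := by linarith
      rw [h7]
      field_simp
      ring
    · rw [hw0 x hx]; simp
  rw [e1, integral_add (hibp 0).1 (hibp 1).1, (hibp 0).2.2, (hibp 1).2.2]
  have e3 := integral_add (hibp 0).2.1.neg (hibp 1).2.1.neg
  simp only [Pi.neg_apply] at e3
  rw [integral_congr_ae (Filter.Eventually.of_forall e2), e3, integral_neg, integral_neg]

end Pool.Agent.Work.MP_6d3bed_an
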