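import Mathlib
import Pool.Agent.Work.MP_6d3bed_an.Radial
import Pool.Agent.Work.MP_6d3bed_an.Approx

set_option autoImplicit false

open MeasureTheory Filter Topology Set
open scoped ENNReal ContDiff

namespace Pool.Agent.Work.MP_6d3bed_an

/-- bounded pointwise convergence implies `L^2` convergence on a finite measure space -/
theorem tendsto_eLpNorm_of_bdd {α F : Type*} [MeasurableSpace α] {μ : Measure α}
    [IsFiniteMeasure μ] [NormedAddCommGroup F] {f : ℕ → α → F} {g : α → F}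
    (hf : ∀ n, AEStronglyMeasurable (f n) μ) (hg : AEStronglyMeasurable g μ) {C : ℝ}
    (hb : ∀ n, ∀ᵐ x ∂μ, ‖f n x - g x‖ ≤ C)
    (hlim : ∀ᵐ x ∂μ, Tendsto (fun n => f n x) atTop (𝓝 (g x))) :
    Tendsto (fun n => eLpNorm (fun x => f n x - g x) 2 μ) atTop (𝓝 0) := by
  have h1 : ∀ n, eLpNorm (fun x => f n x - g x) 2 μ =
      (∫⁻ x, ‖f n x - g x‖ₑ ^ (2 : ℝ) ∂μ) ^ (1 / (2 : ℝ)) := by
    intro n
    rw [eLpNorm_eq_lintegral_rpow_enorm_toReal (by norm_num) (by norm_num)]
    simp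
  have h2 : Tendsto (fun n => ∫⁻ x, ‖f n x - g x‖ₑ ^ (2 : ℝ) ∂μ) atTop (𝓝 (∫⁻ _x, 0 ∂μ)) := by
    apply tendsto_lintegral_of_dominated_convergence' (fun _ => ENNReal.ofReal C ^ (2 : ℝ))
    · intro n
      exact ((hf n).sub hg).enorm.pow_const _
    · intro n
      filter_upwards [hb n] with x hx
      apply ENNReal.rpow_le_rpow _ (by norm_num)
      rw [← ofReal_norm]
      exact ENNReal.ofReal_le_ofReal hx
    · rw [lintegral_const]
      apply ENNReal.mul_ne_top
      · exact ENNReal.rpow_ne_top_of_nonneg (by norm_num) ENNReal.ofReal_ne_top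
      · exact measure_ne_top _ _
    · filter_upwards [hlim] with x hx
      have h3 : Tendsto (fun n => ‖f n x - g x‖ₑ) atTop (𝓝 0) := by
        have h4 : Tendsto (fun n => f n x - g x) atTop (𝓝 0) := by
          simpa using hx.sub_const (g x)
        have h4' := (continuous_enorm.tendsto (0 : F)).comp h4
        rw [enorm_zero] at h4'
        exact h4'
      have h5 := (ENNReal.continuous_rpow_const (y := (2 : ℝ))).tendsto (0 : ℝ≥0∞)
      rw [ENNReal.zero_rpow_of_pos (by norm_num)] at h5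
      exact h5.comp h3
  rw [lintegral_zero] at h2
  have h6 := (ENNReal.continuous_rpow_const (y := (1 / (2 : ℝ)))).tendsto (0 : ℝ≥0∞)
  rw [ENNReal.zero_rpow_of_pos (by norm_num)] at h6
  have h7 := h6.comp h2
  refine h7.congr (fun n => ?_)
  rw [h1 n]; rfl

theorem aesm_of_continuousOn {F : Type*} [NormedAddCommGroup F] {L : ℝ} {g : Plane → F}
    (hg : ContinuousOn g (ann L)) : AEStronglyMeasurable g (volume.restrict (ann L)) :=
  hg.aestronglyMeasurable (isOpen_ann L).measurableSet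

theorem ae_ann {L : ℝ} {P : Plane → Prop} (h : ∀ x ∈ ann L, P x) :
    ∀ᵐ x ∂(volume.restrict (ann L)), P x := by
  rw [ae_restrict_iff' (isOpen_ann L).measurableSet]
  exact Filter.Eventually.of_forall h

theorem memLp_of_bdd {F : Type*} [NormedAddCommGroup F] {L : ℝ} {g : Plane → F} {C : ℝ}
    (hg : ContinuousOn g (ann L)) (hb : ∀ x ∈ ann L, ‖g x‖ ≤ C) (p : ℝ≥0∞) :
    MemLp g p (volume.restrict (ann L)) :=
  MemLp.of_bound (aesm_of_continuousOn hg) C (ae_ann hb)

theorem exp_neg_le_norm {L : ℝ} {x : Plane} (hx : x ∈ ann L) : Real.exp (-L) ≤ ‖x‖ := hx.1.le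

theorem norm_radG_le {L : ℝ} {U1 : ℝ → ℝ} {C : ℝ} (hC : ∀ s ∈ Ioo (-L) L, |U1 s| ≤ C)
    {x : Plane} (hx : x ∈ ann L) : ‖radG U1 x‖ ≤ C * Real.exp L := by
  have hn : 0 < ‖x‖ := norm_pos_iff.2 (ne_zero_of_mem_ann hx)
  have h1 := hC _ (log_mem_of_mem_ann hx)
  have hC0 : 0 ≤ C := (abs_nonneg _).trans h1
  unfold radG
  rw [norm_smul, norm_div, norm_pow, norm_norm, Real.norm_eq_abs]
  have e : |U1 (Real.log ‖x‖)| / ‖x‖ ^ 2 * ‖x‖ = |U1 (Real.log ‖x‖)| * ‖x‖⁻¹ := by
    field_simp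
  rw [e]
  apply mul_le_mul h1 _ (by positivity) hC0
  rw [inv_le_comm₀ hn (Real.exp_pos _), ← Real.exp_neg]
  exact exp_neg_le_norm hx

theorem norm_radG_sq {L : ℝ} {U1 : ℝ → ℝ} {x : Plane} (hx : x ∈ ann L) :
    ‖radG U1 x‖ ^ 2 = U1 (Real.log ‖x‖) ^ 2 / ‖x‖ ^ 2 := by
  have hn : 0 < ‖x‖ := norm_pos_iff.2 (ne_zero_of_mem_ann hx)
  unfold radG
  rw [norm_smul, norm_div, norm_pow, norm_norm, Real.norm_eq_abs, mul_pow, div_pow, sq_abs]
  field_simp

/-- Radial functions vanishing at both ends belong to `H^1_0`. -/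
theorem isH10_radial {L : ℝ} (hL : 0 < L) {U U1 : ℝ → ℝ} (hUc : ContinuousOn U (Icc (-L) L))
    (hU1c : ContinuousOn U1 (Icc (-L) L)) (hder : ∀ s ∈ Ioo (-L) L, HasDerivAt U (U1 s) s)
    (h0 : U (-L) = 0) (h1 : U L = 0) : IsH10 (ann L) (rad U) (radG U1) := by
  obtain ⟨ψ, ψ', C, hψs, hψd, hψ0, hψb, hψl⟩ := exists_approx hL hUc hU1c hder h0 h1
  obtain ⟨M0, hM0⟩ := isCompact_Icc.exists_bound_of_continuousOn hUc
  obtain ⟨M1, hM1⟩ := isCompact_Icc.exists_bound_of_continuousOn hU1c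
  have hUo : ContinuousOn U (Ioo (-L) L) := hUc.mono Ioo_subset_Icc_self
  have hU1o : ContinuousOn U1 (Ioo (-L) L) := hU1c.mono Ioo_subset_Icc_self
  have hU1b : ∀ s ∈ Ioo (-L) L, |U1 s| ≤ M1 := fun s hs => hM1 s (Ioo_subset_Icc_self hs)
  have hradc := continuousOn_rad hUo
  have hradGc := continuousOn_radG hU1o
  have hrb : ∀ x ∈ ann L, ‖rad U x‖ ≤ M0 := fun x hx =>
    hM0 _ (Ioo_subset_Icc_self (log_mem_of_mem_ann hx))
  have hrGb : ∀ x ∈ ann L, ‖radG U1 x‖ ≤ M1 * Real.exp L := fun x hx => norm_radG_le hU1b hx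
  set φ : ℕ → Plane → ℝ := fun n => (ann L).indicator (rad (ψ n)) with hφ
  have hψdiff : ∀ n, Differentiable ℝ (ψ n) := fun n s => (hψd n s).differentiableAt
  have hψ'c : ∀ n, Continuous (ψ' n) := by
    intro n
    have e : ψ' n = deriv (ψ n) := funext fun s => ((hψd n s).deriv).symm
    rw [e]
    exact (hψs n).continuous_deriv (by norm_num)
  -- local descriptions of `φ n`
  have hφin : ∀ n, ∀ x ∈ ann L, φ n =ᶠ[𝓝 x] rad (ψ n) := by
    intro n x hx
    filter_upwards [(isOpen_ann L).mem_nhds hx] with y hy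
    simp only [hφ, indicator_of_mem hy]
  have hφK : ∀ n, ∃ K : Set Plane, IsCompact K ∧ K ⊆ ann L ∧ ∀ x, x ∉ K → φ n x = 0 := by
    intro n
    obtain ⟨δ, hδ, hz⟩ := hψ0 n
    refine ⟨{x : Plane | Real.exp (-L + δ) ≤ ‖x‖ ∧ ‖x‖ ≤ Real.exp (L - δ)}, ?_, ?_, ?_⟩
    · apply Metric.isCompact_of_isClosed_isBounded
      · exact (isClosed_le continuous_const continuous_norm).inter
          (isClosed_le continuous_norm continuous_const)
      · rw [Metric.isBounded_iff_subset_closedBall (0 : Plane)]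
        exact ⟨Real.exp (L - δ), fun x hx => by rw [mem_closedBall_zero_iff]; exact hx.2⟩
    · rintro x ⟨hx1, hx2⟩
      refine ⟨lt_of_lt_of_le (Real.exp_lt_exp.2 (by linarith)) hx1,
        lt_of_le_of_lt hx2 (Real.exp_lt_exp.2 (by linarith))⟩
    · intro x hx
      by_cases hxL : x ∈ ann L
      · simp only [hφ, indicator_of_mem hxL, rad]
        apply hz
        intro hmem
        apply hx
        have hn : 0 < ‖x‖ := norm_pos_iff.2 (ne_zero_of_mem_ann hxL)
        exact ⟨(Real.le_log_iff_exp_le hn).1 hmem.1, (Real.log_le_iff_le_exp hn).1 hmem.2⟩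
      · simp only [hφ, indicator_of_notMem hxL]
  have hφc : ∀ n, ContDiff ℝ ∞ (φ n) ∧ HasCompactSupport (φ n) ∧ tsupport (φ n) ⊆ ann L := by
    intro n
    obtain ⟨K, hK, hKL, hKz⟩ := hφK n
    have hts : tsupport (φ n) ⊆ K := by
      apply closure_minimal _ hK.isClosed
      intro x hx
      by_contra hxK
      exact hx (hKz x hxK)
    refine ⟨?_, HasCompactSupport.of_support_subset_isCompact hK
      ((subset_tsupport _).trans hts), hts.trans hKL⟩
    rw [contDiff_iff_contDiffAt]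
    intro x
    by_cases hx : x ∈ ann L
    · have hx0 := ne_zero_of_mem_ann hx
      have h3 : ContDiffAt ℝ ∞ (fun y : Plane => Real.log ‖y‖) x :=
        (contDiffAt_norm ℝ hx0).log (norm_ne_zero_iff.2 hx0)
      have h4 : ContDiffAt ℝ ∞ (rad (ψ n)) x := (hψs n).contDiffAt.comp x h3
      exact h4.congr_of_eventuallyEq (hφin n x hx)
    · have hxK : x ∉ K := fun h => hx (hKL h)
      have h5 : φ n =ᶠ[𝓝 x] fun _ => 0 := by
        filter_upwards [hK.isClosed.isOpen_compl.mem_nhds hxK] with y hy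
        exact hKz y hy
      exact contDiffAt_const.congr_of_eventuallyEq h5
  have hgrad : ∀ n, ∀ x ∈ ann L, gradient (φ n) x = radG (ψ' n) x := by
    intro n x hx
    have hx0 := ne_zero_of_mem_ann hx
    have h3 : HasFDerivAt (φ n) ((ψ' n (Real.log ‖x‖) / ‖x‖ ^ 2) • innerSL ℝ x) x :=
      (hasFDerivAt_rad hx0 (hψd n _)).congr_of_eventuallyEq (hφin n x hx)
    have h4 : HasGradientAt (φ n) (radG (ψ' n) x) x := by
      rw [hasGradientAt_iff_hasFDerivAt]
      refine h3.congr_fderiv ?_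
      ext y
      rw [InnerProductSpace.toDual_apply_apply]
      simp [radG, inner_smul_left]
    exact h4.gradient
  refine ⟨memLp_of_bdd hradc hrb 2, memLp_of_bdd hradGc hrGb 2, φ, hφc, ?_, ?_⟩
  · apply tendsto_eLpNorm_of_bdd (C := C + M0)
    · exact fun n => (hφc n).1.continuous.aestronglyMeasurable
    · exact aesm_of_continuousOn hradc
    · intro n
      apply ae_ann
      intro x hx
      refine (norm_sub_le _ _).trans (add_le_add ?_ (hrb x hx))
      simp only [hφ, indicator_of_mem hx, rad]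
      exact (hψb n _ (log_mem_of_mem_ann hx)).1
    · apply ae_ann
      intro x hx
      simp only [hφ, indicator_of_mem hx, rad]
      exact (hψl _ (log_mem_of_mem_ann hx)).1
  · apply tendsto_eLpNorm_of_bdd (C := C * Real.exp L + M1 * Real.exp L)
    · intro n
      have h3 : ContinuousOn (radG (ψ' n)) (ann L) := continuousOn_radG (hψ'c n).continuousOn
      have h4 : ContinuousOn (gradient (φ n)) (ann L) := h3.congr (fun x hx => hgrad n x hx)
      exact aesm_of_continuousOn h4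
    · exact aesm_of_continuousOn hradGc
    · intro n
      apply ae_ann
      intro x hx
      refine (norm_sub_le _ _).trans (add_le_add ?_ (hrGb x hx))
      rw [hgrad n x hx]
      exact norm_radG_le (fun s hs => (hψb n s hs).2) hx
    · apply ae_ann
      intro x hx
      have h3 : ∀ n, gradient (φ n) x = (ψ' n (Real.log ‖x‖) / ‖x‖ ^ 2) • x := fun n => hgrad n x hx
      simp only [h3]
      unfold radG
      exact ((hψl _ (log_mem_of_mem_ann hx)).2.div_const _).smul_const _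

/-- passing to the limit in linear expressions -/
theorem tendsto_integral_inner {L : ℝ} {E' : Type*} [NormedAddCommGroup E'] [InnerProductSpace ℝ E']
    {F : Plane → E'} {M : ℝ} (hF : ContinuousOn F (ann L))
    (hM : ∀ x ∈ ann L, ‖F x‖ ≤ M) {v : Plane → E'} (hv : MemLp v 2 (volume.restrict (ann L)))
    {φ : ℕ → Plane → E'} (hφ : ∀ n, MemLp (φ n) 2 (volume.restrict (ann L)))
    (hlim : Tendsto (fun n => eLpNorm (fun x => φ n x - v x) 2 (volume.restrict (ann L)))
      atTop (𝓝 0)) :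
    Tendsto (fun n => ∫ x in ann L, inner ℝ (F x) (φ n x)) atTop
      (𝓝 (∫ x in ann L, inner ℝ (F x) (v x))) := by
  set μ := volume.restrict (ann L) with hμ
  have hFm : AEStronglyMeasurable F μ := aesm_of_continuousOn hF
  have hint : ∀ w : Plane → E', MemLp w 2 μ → Integrable (fun x => inner ℝ (F x) (w x)) μ := by
    intro w hw
    have h1 : Integrable w μ := hw.integrable (by norm_num)
    have h2 : AEStronglyMeasurable (fun x => inner ℝ (F x) (w x)) μ :=
      hFm.inner h1.aestronglyMeasurable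
    refine (h1.norm.const_mul M).mono' h2 ?_
    apply ae_ann
    intro x hx
    exact (norm_inner_le_norm _ _).trans (mul_le_mul_of_nonneg_right (hM x hx) (norm_nonneg _))
  apply tendsto_integral_of_L1' _ (hint v hv).aestronglyMeasurable
    (Filter.Eventually.of_forall fun n => hint _ (hφ n))
  have h2 : ∀ n, eLpNorm ((fun x => inner ℝ (F x) (φ n x)) - fun x => inner ℝ (F x) (v x)) 1 μ ≤
      ENNReal.ofReal (max M 0) * (eLpNorm (fun x => φ n x - v x) 2 μ *
        μ Set.univ ^ (1 / (1 : ℝ≥0∞).toReal - 1 / (2 : ℝ≥0∞).toReal)) := by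
    intro n
    have h3 : eLpNorm ((fun x => inner ℝ (F x) (φ n x)) - fun x => inner ℝ (F x) (v x)) 1 μ ≤
        ENNReal.ofReal (max M 0) * eLpNorm (fun x => φ n x - v x) 1 μ := by
      apply eLpNorm_le_mul_eLpNorm_of_ae_le_mul
      apply ae_ann
      intro x hx
      simp only [Pi.sub_apply]
      rw [← inner_sub_right]
      refine (norm_inner_le_norm _ _).trans ?_
      exact mul_le_mul_of_nonneg_right ((hM x hx).trans (le_max_left _ _)) (norm_nonneg _)
    refine h3.trans (mul_le_mul_right ?_ _)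
    exact eLpNorm_le_eLpNorm_mul_rpow_measure_univ (by norm_num)
      ((hφ n).aestronglyMeasurable.sub hv.aestronglyMeasurable)
  have h4 : Tendsto (fun n => ENNReal.ofReal (max M 0) * (eLpNorm (fun x => φ n x - v x) 2 μ *
        μ Set.univ ^ (1 / (1 : ℝ≥0∞).toReal - 1 / (2 : ℝ≥0∞).toReal))) atTop (𝓝 0) := by
    have hfin : μ Set.univ ^ (1 / (1 : ℝ≥0∞).toReal - 1 / (2 : ℝ≥0∞).toReal) ≠ ⊤ := by
      apply ENNReal.rpow_ne_top_of_nonneg _ (measure_ne_top _ _)
      norm_num
    have h5 := ENNReal.Tendsto.mul_const hlim (Or.inr hfin)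
    have h6 := ENNReal.Tendsto.const_mul (a := ENNReal.ofReal (max M 0)) h5
      (Or.inr ENNReal.ofReal_ne_top)
    simpa using h6
  exact tendsto_of_tendsto_of_tendsto_of_le_of_le tendsto_const_nhds h4 (fun n => bot_le) h2

theorem memLp_testfn {F : Type*} [NormedAddCommGroup F] {L : ℝ} {w : Plane → F}
    (hw : Continuous w) (hc : HasCompactSupport w) (p : ℝ≥0∞) :
    MemLp w p (volume.restrict (ann L)) :=
  (hw.memLp_of_hasCompactSupport hc).restrict _

theorem continuous_gradient_of {w : Plane → ℝ} (hw : ContDiff ℝ ∞ w) : Continuous (gradient w) := by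
  have h1 : Continuous (fun x => fderiv ℝ w x) := hw.continuous_fderiv (by norm_num)
  exact (InnerProductSpace.toDual ℝ Plane).symm.continuous.comp h1

theorem hasCompactSupport_gradient {w : Plane → ℝ} (hc : HasCompactSupport w) :
    HasCompactSupport (gradient w) := by
  have h1 : HasCompactSupport (fderiv ℝ w) := hc.fderiv ℝ
  exact h1.comp_left (g := (InnerProductSpace.toDual ℝ Plane).symm) (by simp)

theorem memLp_gradient_testfn {L : ℝ} {w : Plane → ℝ} (hw : ContDiff ℝ ∞ w)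
    (hc : HasCompactSupport w) (p : ℝ≥0∞) : MemLp (gradient w) p (volume.restrict (ann L)) :=
  memLp_testfn (continuous_gradient_of hw) (hasCompactSupport_gradient hc) p

/-- the weak formulation for radial functions, tested against all of `H^1_0` -/
theorem weak_radial {L : ℝ} {U1 U2 : ℝ → ℝ} (hU : ∀ s ∈ Ioo (-L) L, HasDerivAt U1 (U2 s) s)
    (hU2 : ContinuousOn U2 (Ioo (-L) L)) {C : ℝ} (hC1 : ∀ s ∈ Ioo (-L) L, |U1 s| ≤ C)
    (hC2 : ∀ s ∈ Ioo (-L) L, |U2 s| ≤ C) {v : Plane → ℝ} {Gv : Plane → Plane}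
    (hv : IsH10 (ann L) v Gv) :
    ∫ x in ann L, inner ℝ (radG U1 x) (Gv x) =
      ∫ x in ann L, (-(U2 (Real.log ‖x‖) / ‖x‖ ^ 2)) * v x := by
  obtain ⟨hv1, hv2, φ, hφ, hl1, hl2⟩ := hv
  have hU1c : ContinuousOn U1 (Ioo (-L) L) := fun s hs => (hU s hs).continuousAt.continuousWithinAt
  have hnorm : ∀ x ∈ ann L, ‖x‖ ≠ 0 := fun x hx => norm_ne_zero_iff.2 (ne_zero_of_mem_ann hx)
  have hfc : ContinuousOn (fun x : Plane => -(U2 (Real.log ‖x‖) / ‖x‖ ^ 2)) (ann L) :=
    ((continuousOn_rad hU2).div (by fun_prop) (fun x hx => pow_ne_zero 2 (hnorm x hx))).neg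
  have hfb : ∀ x ∈ ann L, ‖-(U2 (Real.log ‖x‖) / ‖x‖ ^ 2)‖ ≤ C * Real.exp L ^ 2 := by
    intro x hx
    have hn : 0 < ‖x‖ := norm_pos_iff.2 (ne_zero_of_mem_ann hx)
    have h1 := hC2 _ (log_mem_of_mem_ann hx)
    have hC0 : 0 ≤ C := (abs_nonneg _).trans h1
    rw [norm_neg, norm_div, norm_pow, norm_norm, Real.norm_eq_abs, div_eq_mul_inv]
    apply mul_le_mul h1 _ (by positivity) hC0
    rw [← inv_pow]
    apply pow_le_pow_left₀ (by positivity)
    rw [inv_le_comm₀ hn (Real.exp_pos _), ← Real.exp_neg]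
    exact exp_neg_le_norm hx
  have t1 := tendsto_integral_inner (F := radG U1) (continuousOn_radG hU1c)
    (fun x hx => norm_radG_le hC1 hx) hv2
    (fun n => memLp_gradient_testfn (hφ n).1 (hφ n).2.1 2) hl2
  have t2 := tendsto_integral_inner (E' := ℝ) hfc hfb hv1
    (fun n => memLp_testfn (hφ n).1.continuous (hφ n).2.1 2) hl1
  have e : ∀ n, ∫ x in ann L, inner ℝ (radG U1 x) (gradient (φ n) x) =
      ∫ x in ann L, inner ℝ (-(U2 (Real.log ‖x‖) / ‖x‖ ^ 2)) (φ n x) := by
    intro n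
    rw [weak_testfn hU hU2 ((hφ n).1.of_le (by norm_num)) (hφ n).2.1 (hφ n).2.2]
    apply integral_congr_ae
    exact Filter.Eventually.of_forall fun x => by
      simp only [real_inner_eq_re_inner, RCLike.inner_apply, conj_trivial]
      simp [mul_comm]
  simp only [e] at t1
  have h := tendsto_nhds_unique t1 t2
  rw [h]
  apply integral_congr_ae
  exact Filter.Eventually.of_forall fun x => by
    simp [mul_comm]

end Pool.Agent.Work.MP_6d3bed_an
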