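import Mathlib
import Pool.Agent.Work.MP_6d3bed_an.Sobolev

set_option autoImplicit false

open MeasureTheory Filter Topology Set
open scoped ENNReal ContDiff

namespace Pool.Agent.Work.MP_6d3bed_an

theorem integral_norm_sq_eq {α F : Type*} [MeasurableSpace α] {μ : Measure α}
    [NormedAddCommGroup F] {f : α → F} (hf : MemLp f 2 μ) :
    ∫ x, ‖f x‖ ^ 2 ∂μ = (eLpNorm f 2 μ).toReal ^ 2 := by
  rw [MemLp.eLpNorm_eq_integral_rpow_norm (by norm_num) (by norm_num) hf]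
  have h0 : 0 ≤ ∫ x, ‖f x‖ ^ 2 ∂μ := integral_nonneg fun x => by positivity
  simp only [ENNReal.toReal_ofNat, Real.rpow_ofNat]
  rw [ENNReal.toReal_ofReal (Real.rpow_nonneg h0 _), ← Real.rpow_natCast, ← Real.rpow_mul h0]
  norm_num

theorem tendsto_integral_norm_sq {α F : Type*} [MeasurableSpace α] {μ : Measure α}
    [NormedAddCommGroup F] {f : ℕ → α → F} {g : α → F} (hf : ∀ n, MemLp (f n) 2 μ)
    (hg : MemLp g 2 μ)
    (hlim : Tendsto (fun n => eLpNorm (fun x => f n x - g x) 2 μ) atTop (𝓝 0)) :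
    Tendsto (fun n => ∫ x, ‖f n x‖ ^ 2 ∂μ) atTop (𝓝 (∫ x, ‖g x‖ ^ 2 ∂μ)) := by
  have h1 := (Lp.tendsto_Lp_iff_tendsto_eLpNorm'' f hf g hg).2 hlim
  have h2 := (h1.norm).pow 2
  simp only [Lp.norm_toLp] at h2
  rw [integral_norm_sq_eq hg]
  refine h2.congr (fun n => ?_)
  rw [integral_norm_sq_eq (hf n)]

/-- weighted version -/
theorem tendsto_integral_weight_sq {L : ℝ} {c : Plane → ℝ} (hc : ContinuousOn c (ann L))
    {C : ℝ} (hC : ∀ x ∈ ann L, c x ≤ C) (hc0 : ∀ x ∈ ann L, 0 ≤ c x)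
    {f : ℕ → Plane → ℝ} {g : Plane → ℝ} (hf : ∀ n, MemLp (f n) 2 (volume.restrict (ann L)))
    (hg : MemLp g 2 (volume.restrict (ann L)))
    (hlim : Tendsto (fun n => eLpNorm (fun x => f n x - g x) 2 (volume.restrict (ann L)))
      atTop (𝓝 0)) :
    Tendsto (fun n => ∫ x in ann L, c x * f n x ^ 2) atTop (𝓝 (∫ x in ann L, c x * g x ^ 2)) := by
  have hsc : ContinuousOn (fun x => √(c x)) (ann L) := hc.sqrt
  have hsm := aesm_of_continuousOn hsc
  have hmem : ∀ w : Plane → ℝ, MemLp w 2 (volume.restrict (ann L)) →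
      MemLp (fun x => √(c x) * w x) 2 (volume.restrict (ann L)) := by
    intro w hw
    refine MemLp.of_le_mul (c := √C) hw (hsm.mul hw.aestronglyMeasurable) ?_
    apply ae_ann
    intro x hx
    rw [norm_mul]
    apply mul_le_mul_of_nonneg_right _ (norm_nonneg _)
    rw [Real.norm_eq_abs, abs_of_nonneg (Real.sqrt_nonneg _)]
    exact Real.sqrt_le_sqrt (hC x hx)
  have hlim' : Tendsto (fun n => eLpNorm (fun x => √(c x) * f n x - √(c x) * g x) 2
      (volume.restrict (ann L))) atTop (𝓝 0) := by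
    have h4 : Tendsto (fun n => ENNReal.ofReal (√C) *
        eLpNorm (fun x => f n x - g x) 2 (volume.restrict (ann L))) atTop (𝓝 0) := by
      have h6 := ENNReal.Tendsto.const_mul (a := ENNReal.ofReal (√C)) hlim
        (Or.inr ENNReal.ofReal_ne_top)
      simpa using h6
    refine tendsto_of_tendsto_of_tendsto_of_le_of_le tendsto_const_nhds h4 (fun n => bot_le) ?_
    intro n
    apply eLpNorm_le_mul_eLpNorm_of_ae_le_mul
    apply ae_ann
    intro x hx
    rw [← mul_sub, norm_mul]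
    apply mul_le_mul_of_nonneg_right _ (norm_nonneg _)
    rw [Real.norm_eq_abs, abs_of_nonneg (Real.sqrt_nonneg _)]
    exact Real.sqrt_le_sqrt (hC x hx)
  have h := tendsto_integral_norm_sq (fun n => hmem _ (hf n)) (hmem _ hg) hlim'
  have e : ∀ w : Plane → ℝ, ∫ x in ann L, ‖√(c x) * w x‖ ^ 2 = ∫ x in ann L, c x * w x ^ 2 := by
    intro w
    apply setIntegral_congr_fun (isOpen_ann L).measurableSet
    intro x hx
    change ‖√(c x) * w x‖ ^ 2 = c x * w x ^ 2
    rw [Real.norm_eq_abs, sq_abs, mul_pow, Real.sq_sqrt (hc0 x hx)]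
  rw [e] at h
  exact h.congr (fun n => e _)

/-- Barta/Picone inequality for test functions. -/
theorem barta_testfn {L : ℝ} {Φ Φ1 Φ2 : ℝ → ℝ} (h1 : ∀ s ∈ Ioo (-L) L, HasDerivAt Φ (Φ1 s) s)
    (h2 : ∀ s ∈ Ioo (-L) L, HasDerivAt Φ1 (Φ2 s) s) (h2c : ContinuousOn Φ2 (Ioo (-L) L))
    (hpos : ∀ s ∈ Ioo (-L) L, 0 < Φ s) {φ : Plane → ℝ} (hφ : ContDiff ℝ ∞ φ)
    (hc : HasCompactSupport φ) (hs : tsupport φ ⊆ ann L) {c : ℝ → ℝ}
    (hcc : ContinuousOn c (Ioo (-L) L)) (hK : ∀ s ∈ Ioo (-L) L, c s * Φ s ≤ -Φ2 s) :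
    ∫ x in ann L, (c (Real.log ‖x‖) / ‖x‖ ^ 2) * φ x ^ 2 ≤ ∫ x in ann L, ‖gradient φ x‖ ^ 2 := by
  have hΦ1c : ContinuousOn Φ1 (Ioo (-L) L) := fun s hs => (h2 s hs).continuousAt.continuousWithinAt
  have hΦc : ContinuousOn Φ (Ioo (-L) L) := fun s hs => (h1 s hs).continuousAt.continuousWithinAt
  set w : Plane → ℝ := fun x => φ x ^ 2 * (rad Φ x)⁻¹ with hw
  have hwsupp : ∀ x, x ∉ tsupport φ → w =ᶠ[𝓝 x] fun _ => 0 := by
    intro x hx
    have : φ =ᶠ[𝓝 x] fun _ => 0 := notMem_tsupport_iff_eventuallyEq.1 hx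
    filter_upwards [this] with y hy
    simp only [hw, hy]; ring
  have hwd : ∀ x ∈ ann L, HasFDerivAt w ((φ x ^ 2) • ((-(rad Φ x ^ 2)⁻¹) •
      ((Φ1 (Real.log ‖x‖) / ‖x‖ ^ 2) • innerSL ℝ x)) +
      ((rad Φ x)⁻¹) • ((2 * φ x) • fderiv ℝ φ x)) x := by
    intro x hx
    have hx0 := ne_zero_of_mem_ann hx
    have hl := log_mem_of_mem_ann hx
    have e1 := hasFDerivAt_rad hx0 (h1 _ hl)
    have hne : rad Φ x ≠ 0 := (hpos _ hl).ne'
    have e2 : HasFDerivAt (fun y => (rad Φ y)⁻¹) ((-(rad Φ x ^ 2)⁻¹) •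
      ((Φ1 (Real.log ‖x‖) / ‖x‖ ^ 2) • innerSL ℝ x)) x := (hasDerivAt_inv hne).comp_hasFDerivAt x e1
    have e3 : HasFDerivAt φ (fderiv ℝ φ x) x :=
      ((hφ.differentiable (by norm_num)) x).hasFDerivAt
    have e4 : HasFDerivAt (fun y => φ y ^ 2) ((2 * φ x) • fderiv ℝ φ x) x := by
      have := e3.pow 2
      simpa using this
    exact e4.fun_mul e2
  have hnorm : ∀ x ∈ ann L, ‖x‖ ≠ 0 := fun x hx => norm_ne_zero_iff.2 (ne_zero_of_mem_ann hx)
  have hradc : ContinuousOn (rad Φ) (ann L) := continuousOn_rad hΦc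
  have hrad1c : ContinuousOn (fun x : Plane => Φ1 (Real.log ‖x‖)) (ann L) := continuousOn_rad hΦ1c
  have hrad2c : ContinuousOn (fun x : Plane => Φ2 (Real.log ‖x‖)) (ann L) := continuousOn_rad h2c
  have hcrad : ContinuousOn (fun x : Plane => c (Real.log ‖x‖)) (ann L) := continuousOn_rad hcc
  have hradne : ∀ x ∈ ann L, rad Φ x ≠ 0 := fun x hx => (hpos _ (log_mem_of_mem_ann hx)).ne'
  have hfderivc : Continuous (fun x => fderiv ℝ φ x) := hφ.continuous_fderiv (by norm_num)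
  have hφc : Continuous φ := hφ.continuous
  have hw1 : ContDiff ℝ 1 w := by
    rw [contDiff_iff_contDiffAt]
    intro x
    by_cases hx : x ∈ ann L
    · rw [contDiffAt_one_iff]
      refine ⟨_, ann L, (isOpen_ann L).mem_nhds hx, ?_, hwd⟩
      have c1 : ContinuousOn (fun x : Plane => φ x ^ 2) (ann L) := (hφc.pow 2).continuousOn
      have c2 : ContinuousOn (fun x : Plane => -(rad Φ x ^ 2)⁻¹) (ann L) :=
        ((hradc.pow 2).inv₀ (fun x hx => pow_ne_zero 2 (hradne x hx))).neg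
      have c3 : ContinuousOn (fun x : Plane => Φ1 (Real.log ‖x‖) / ‖x‖ ^ 2) (ann L) :=
        hrad1c.div (by fun_prop) (fun x hx => pow_ne_zero 2 (hnorm x hx))
      have c4 : ContinuousOn (fun x : Plane => innerSL ℝ x) (ann L) :=
        (innerSL ℝ).continuous.continuousOn
      have c5 : ContinuousOn (fun x : Plane => (rad Φ x)⁻¹) (ann L) := hradc.inv₀ hradne
      have c6 : ContinuousOn (fun x : Plane => 2 * φ x) (ann L) :=
        (continuous_const.mul hφc).continuousOn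
      exact (c1.smul (c2.smul (c3.smul c4))).add (c5.smul (c6.smul hfderivc.continuousOn))
    · exact contDiffAt_const.congr_of_eventuallyEq (hwsupp x (fun h => hx (hs h)))
  have hwts : tsupport w ⊆ tsupport φ := by
    apply closure_minimal _ (isClosed_tsupport φ)
    intro x hx
    by_contra hxK
    exact hx (hwsupp x hxK).eq_of_nhds
  have hwc : HasCompactSupport w := HasCompactSupport.of_support_subset_isCompact hc
    ((subset_tsupport _).trans hwts)
  have key := weak_testfn h2 h2c hw1 hwc (hwts.trans hs)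
  have hinner : ∀ x ∈ ann L, inner ℝ (radG Φ1 x) (gradient w x) ≤ ‖gradient φ x‖ ^ 2 := by
    intro x hx
    have hn : 0 < ‖x‖ := norm_pos_iff.2 (ne_zero_of_mem_ann hx)
    have hP : 0 < Φ (Real.log ‖x‖) := hpos _ (log_mem_of_mem_ann hx)
    rw [inner_gradient_right, (hwd x hx).fderiv, ← sub_nonneg]
    have e1 : fderiv ℝ φ x (radG Φ1 x) = (Φ1 (Real.log ‖x‖) / ‖x‖ ^ 2) * fderiv ℝ φ x x := by
      simp [radG]
    have e2 : inner ℝ x (gradient φ x) = fderiv ℝ φ x x := by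
      rw [inner_gradient_right]; simp
    have e3 : inner ℝ x (radG Φ1 x) = Φ1 (Real.log ‖x‖) := by
      unfold radG
      rw [inner_smul_right, real_inner_self_eq_norm_sq]
      field_simp
    have hsq : 0 ≤ ‖gradient φ x - (φ x * Φ1 (Real.log ‖x‖) / (Φ (Real.log ‖x‖) * ‖x‖ ^ 2)) • x‖ ^ 2 := by
      positivity
    rw [norm_sub_sq_real, inner_smul_right, real_inner_comm, e2, norm_smul, mul_pow,
      Real.norm_eq_abs, sq_abs] at hsq
    refine hsq.trans (le_of_eq ?_)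
    simp only [add_apply, smul_apply, smul_eq_mul, e1, innerSL_apply_apply, e3, rad,
      map_add, map_mul, conj_trivial]
    field_simp
    ring
  have i1 : IntegrableOn (fun x => (c (Real.log ‖x‖) / ‖x‖ ^ 2) * φ x ^ 2) (ann L) := by
    apply Integrable.integrableOn
    apply integrable_of_tsupport hc hs
    · apply ContinuousOn.mul
      · exact hcrad.div (by fun_prop) (fun x hx => pow_ne_zero 2 (hnorm x hx))
      · fun_prop
    · intro x hx
      change (c (Real.log ‖x‖) / ‖x‖ ^ 2) * φ x ^ 2 = 0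
      rw [image_eq_zero_of_notMem_tsupport hx]; ring
  have i2 : IntegrableOn (fun x => (-(Φ2 (Real.log ‖x‖) / ‖x‖ ^ 2)) * w x) (ann L) := by
    apply Integrable.integrableOn
    apply integrable_of_tsupport hc hs
    · apply ContinuousOn.mul
      · exact (hrad2c.div (by fun_prop) (fun x hx => pow_ne_zero 2 (hnorm x hx))).neg
      · exact hw1.continuous.continuousOn
    · intro x hx
      change (-(Φ2 (Real.log ‖x‖) / ‖x‖ ^ 2)) * w x = 0
      rw [(hwsupp x hx).eq_of_nhds]; ring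
  have hgradc : Continuous (gradient w) := by
    have h1 : Continuous (fun x => fderiv ℝ w x) := hw1.continuous_fderiv (by norm_num)
    exact (InnerProductSpace.toDual ℝ Plane).symm.continuous.comp h1
  have i3 : IntegrableOn (fun x => inner ℝ (radG Φ1 x) (gradient w x)) (ann L) := by
    apply Integrable.integrableOn
    apply integrable_of_tsupport hc hs
    · exact (continuousOn_radG hΦ1c).inner hgradc.continuousOn
    · intro x hx
      rw [inner_gradient_right, (hwsupp x hx).fderiv_eq]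
      simp
  have i4 : IntegrableOn (fun x => ‖gradient φ x‖ ^ 2) (ann L) := by
    apply Integrable.integrableOn
    have hgc := continuous_gradient_of hφ
    apply integrable_of_tsupport hc hs (hgc.norm.pow 2).continuousOn
    intro x hx
    have : φ =ᶠ[𝓝 x] fun _ => 0 := notMem_tsupport_iff_eventuallyEq.1 hx
    have e : gradient φ x = 0 := by
      unfold gradient
      rw [this.fderiv_eq]; simp
    change ‖gradient φ x‖ ^ 2 = 0
    rw [e]; simp
  calc ∫ x in ann L, (c (Real.log ‖x‖) / ‖x‖ ^ 2) * φ x ^ 2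
      ≤ ∫ x in ann L, (-(Φ2 (Real.log ‖x‖) / ‖x‖ ^ 2)) * w x := by
        apply setIntegral_mono_on i1 i2 (isOpen_ann L).measurableSet
        intro x hx
        have hn : 0 < ‖x‖ := norm_pos_iff.2 (ne_zero_of_mem_ann hx)
        have hP : 0 < Φ (Real.log ‖x‖) := hpos _ (log_mem_of_mem_ann hx)
        have h5 := hK _ (log_mem_of_mem_ann hx)
        simp only [hw, rad]
        have h6 : c (Real.log ‖x‖) ≤ -Φ2 (Real.log ‖x‖) * (Φ (Real.log ‖x‖))⁻¹ := by
          rw [← div_eq_mul_inv, le_div_iff₀ hP]; exact h5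
        calc c (Real.log ‖x‖) / ‖x‖ ^ 2 * φ x ^ 2
            ≤ (-Φ2 (Real.log ‖x‖) * (Φ (Real.log ‖x‖))⁻¹) / ‖x‖ ^ 2 * φ x ^ 2 := by gcongr
          _ = _ := by ring
    _ = ∫ x in ann L, inner ℝ (radG Φ1 x) (gradient w x) := key.symm
    _ ≤ ∫ x in ann L, ‖gradient φ x‖ ^ 2 :=
        setIntegral_mono_on i3 i4 (isOpen_ann L).measurableSet hinner

/-- Barta/Picone inequality on `H^1_0`. -/
theorem barta {L : ℝ} {Φ Φ1 Φ2 : ℝ → ℝ} (h1 : ∀ s ∈ Ioo (-L) L, HasDerivAt Φ (Φ1 s) s)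
    (h2 : ∀ s ∈ Ioo (-L) L, HasDerivAt Φ1 (Φ2 s) s) (h2c : ContinuousOn Φ2 (Ioo (-L) L))
    (hpos : ∀ s ∈ Ioo (-L) L, 0 < Φ s) {c : ℝ → ℝ}
    (hcc : ContinuousOn c (Ioo (-L) L)) {C : ℝ} (hC : ∀ s ∈ Ioo (-L) L, c s ≤ C)
    (hc0 : ∀ s ∈ Ioo (-L) L, 0 ≤ c s)
    (hK : ∀ s ∈ Ioo (-L) L, c s * Φ s ≤ -Φ2 s) {v : Plane → ℝ} {Gv : Plane → Plane}
    (hv : IsH10 (ann L) v Gv) :
    ∫ x in ann L, (c (Real.log ‖x‖) / ‖x‖ ^ 2) * v x ^ 2 ≤ ∫ x in ann L, ‖Gv x‖ ^ 2 := by
  obtain ⟨hv1, hv2, φ, hφ, hl1, hl2⟩ := hv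
  have hnorm : ∀ x ∈ ann L, ‖x‖ ≠ 0 := fun x hx => norm_ne_zero_iff.2 (ne_zero_of_mem_ann hx)
  have hcrad : ContinuousOn (fun x : Plane => c (Real.log ‖x‖)) (ann L) := continuousOn_rad hcc
  have hcc' : ContinuousOn (fun x : Plane => c (Real.log ‖x‖) / ‖x‖ ^ 2) (ann L) :=
    hcrad.div (by fun_prop) (fun x hx => pow_ne_zero 2 (hnorm x hx))
  have t1 := tendsto_integral_weight_sq (C := C * Real.exp L ^ 2) hcc'
    (by
      intro x hx
      have hn : 0 < ‖x‖ := norm_pos_iff.2 (ne_zero_of_mem_ann hx)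
      have hc1 := hC _ (log_mem_of_mem_ann hx)
      have hc2 := hc0 _ (log_mem_of_mem_ann hx)
      rw [div_eq_mul_inv]
      apply mul_le_mul hc1 _ (by positivity) (hc2.trans hc1)
      rw [← inv_pow]
      apply pow_le_pow_left₀ (by positivity)
      rw [inv_le_comm₀ hn (Real.exp_pos _), ← Real.exp_neg]
      exact exp_neg_le_norm hx)
    (by
      intro x hx
      have hc2 := hc0 _ (log_mem_of_mem_ann hx)
      positivity)
    (fun n => memLp_testfn (hφ n).1.continuous (hφ n).2.1 2) hv1 hl1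
  have t2 := tendsto_integral_norm_sq (fun n => memLp_gradient_testfn (hφ n).1 (hφ n).2.1 2) hv2 hl2
  exact le_of_tendsto_of_tendsto' t1 t2 (fun n =>
    barta_testfn h1 h2 h2c hpos (hφ n).1 (hφ n).2.1 (hφ n).2.2 hcc hK)

end Pool.Agent.Work.MP_6d3bed_an
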