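import Mathlib

set_option autoImplicit false

open MeasureTheory Filter Topology Set

namespace Pool.Agent.Work.MP_6d3bed_an

/-- minimum principle -/
theorem maxp {L : ℝ} (hL : 0 < L) {D D1 D2 : ℝ → ℝ} (hc : ContinuousOn D (Icc (-L) L))
    (h1 : ∀ s ∈ Ioo (-L) L, HasDerivAt D (D1 s) s) (h2 : ∀ s ∈ Ioo (-L) L, HasDerivAt D1 (D2 s) s)
    (h3 : ∀ s ∈ Ioo (-L) L, D2 s ≤ 0) (hm : 0 ≤ D (-L)) (hp : 0 ≤ D L) :
    ∀ s ∈ Icc (-L) L, 0 ≤ D s := by
  have hconc : ConcaveOn ℝ (Icc (-L) L) D := by
    apply concaveOn_of_hasDerivWithinAt2_nonpos (convex_Icc _ _) hc (f' := D1) (f'' := D2)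
    · intro x hx
      rw [interior_Icc] at *
      exact (h1 x hx).hasDerivWithinAt
    · intro x hx
      rw [interior_Icc] at *
      exact (h2 x hx).hasDerivWithinAt
    · intro x hx
      rw [interior_Icc] at *
      exact h3 x hx
  intro s hs
  have h := hconc.min_le_of_mem_Icc (left_mem_Icc.2 (by linarith)) (right_mem_Icc.2 (by linarith)) hs
  exact (le_min hm hp).trans h

/-- the solution of `-y'' = f`, `y(±L) = 0` -/
noncomputable def green (L : ℝ) (f : ℝ → ℝ) (s : ℝ) : ℝ :=
  ((L + s) / (2 * L)) * (∫ t in s..L, (L - t) * f t) +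
    ((L - s) / (2 * L)) * ∫ t in (-L)..s, (L + t) * f t

noncomputable def green1 (L : ℝ) (f : ℝ → ℝ) (s : ℝ) : ℝ :=
  (1 / (2 * L)) * (∫ t in s..L, (L - t) * f t) - (1 / (2 * L)) * ∫ t in (-L)..s, (L + t) * f t

theorem green_left {L : ℝ} (f : ℝ → ℝ) : green L f (-L) = 0 := by
  simp [green]

theorem green_right {L : ℝ} (f : ℝ → ℝ) : green L f L = 0 := by
  simp [green]

theorem hasDerivAt_intRight {L : ℝ} {f : ℝ → ℝ} (hf : Continuous f) (s : ℝ) :
    HasDerivAt (fun s => ∫ t in s..L, (L - t) * f t) (-((L - s) * f s)) s := by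
  have hc : Continuous fun t => (L - t) * f t := by fun_prop
  exact intervalIntegral.integral_hasDerivAt_left (hc.intervalIntegrable _ _)
    (hc.stronglyMeasurableAtFilter _ _) hc.continuousAt

theorem hasDerivAt_intLeft {L : ℝ} {f : ℝ → ℝ} (hf : Continuous f) (s : ℝ) :
    HasDerivAt (fun s => ∫ t in (-L)..s, (L + t) * f t) ((L + s) * f s) s := by
  have hc : Continuous fun t => (L + t) * f t := by fun_prop
  exact intervalIntegral.integral_hasDerivAt_right (hc.intervalIntegrable _ _)
    (hc.stronglyMeasurableAtFilter _ _) hc.continuousAt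

theorem hasDerivAt_green {L : ℝ} (hL : 0 < L) {f : ℝ → ℝ} (hf : Continuous f) (s : ℝ) :
    HasDerivAt (green L f) (green1 L f s) s := by
  have h1 := hasDerivAt_intRight (L := L) hf s
  have h2 := hasDerivAt_intLeft (L := L) hf s
  have h3 : HasDerivAt (fun s : ℝ => (L + s) / (2 * L)) (1 / (2 * L)) s :=
    ((hasDerivAt_id s).const_add L).div_const _
  have h4 : HasDerivAt (fun s : ℝ => (L - s) / (2 * L)) ((-1) / (2 * L)) s :=
    ((hasDerivAt_id s).const_sub L).div_const _
  refine ((h3.mul h1).add (h4.mul h2)).congr_deriv ?_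
  unfold green1
  field_simp
  ring

theorem hasDerivAt_green1 {L : ℝ} (hL : 0 < L) {f : ℝ → ℝ} (hf : Continuous f) (s : ℝ) :
    HasDerivAt (green1 L f) (-f s) s := by
  have h1 := hasDerivAt_intRight (L := L) hf s
  have h2 := hasDerivAt_intLeft (L := L) hf s
  refine ((h1.const_mul (1 / (2 * L))).sub (h2.const_mul (1 / (2 * L)))).congr_deriv ?_
  field_simp
  ring

theorem continuous_green {L : ℝ} {f : ℝ → ℝ} (hf : Measurable f) {C : ℝ}
    (hC : ∀ t, |f t| ≤ C) : Continuous (green L f) := by
  have hint : ∀ (g : ℝ → ℝ), Continuous g → ∀ a b, IntervalIntegrable (fun t => g t * f t) volume a b := by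
    intro g hg a b
    have h1 : IntervalIntegrable f volume a b := by
      rw [intervalIntegrable_iff]
      refine Measure.integrableOn_of_bounded (M := C) (by simp) hf.aestronglyMeasurable ?_
      exact Filter.Eventually.of_forall fun t => hC t
    exact h1.continuousOn_mul hg.continuousOn
  have h1 : Continuous fun s => ∫ t in s..L, (L - t) * f t := by
    have e : (fun s => ∫ t in s..L, (L - t) * f t) = fun s => -∫ t in L..s, (L - t) * f t := by
      funext s
      rw [intervalIntegral.integral_symm]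
    rw [e]
    exact (intervalIntegral.continuous_primitive (hint _ (by fun_prop)) L).neg
  have h2 : Continuous fun s => ∫ t in (-L)..s, (L + t) * f t :=
    intervalIntegral.continuous_primitive (hint _ (by fun_prop)) (-L)
  unfold green
  fun_prop

theorem green_mono {L : ℝ} (hL : 0 < L) {f g : ℝ → ℝ} (hf : Continuous f) (hg : Continuous g)
    (hfg : ∀ t, f t ≤ g t) {s : ℝ} (hs : s ∈ Icc (-L) L) : green L f s ≤ green L g s := by
  obtain ⟨hs1, hs2⟩ := hs
  unfold green
  apply add_le_add
  · apply mul_le_mul_of_nonneg_left _ (by apply div_nonneg <;> linarith)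
    apply intervalIntegral.integral_mono_on hs2 ((by fun_prop : Continuous _).intervalIntegrable _ _)
      ((by fun_prop : Continuous _).intervalIntegrable _ _)
    intro t ht
    exact mul_le_mul_of_nonneg_left (hfg t) (by linarith [ht.2])
  · apply mul_le_mul_of_nonneg_left _ (by apply div_nonneg <;> linarith)
    apply intervalIntegral.integral_mono_on hs1 ((by fun_prop : Continuous _).intervalIntegrable _ _)
      ((by fun_prop : Continuous _).intervalIntegrable _ _)
    intro t ht
    exact mul_le_mul_of_nonneg_left (hfg t) (by linarith [ht.1])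

theorem tendsto_green {L : ℝ} {f : ℕ → ℝ → ℝ} {g : ℝ → ℝ} (hf : ∀ n, Continuous (f n))
    {C : ℝ} (hC : ∀ n t, |f n t| ≤ C) (hlim : ∀ t, Tendsto (fun n => f n t) atTop (𝓝 (g t)))
    (s : ℝ) : Tendsto (fun n => green L (f n) s) atTop (𝓝 (green L g s)) := by
  have key : ∀ (k : ℝ → ℝ), Continuous k → ∀ a b, Tendsto (fun n => ∫ t in a..b, k t * f n t)
      atTop (𝓝 (∫ t in a..b, k t * g t)) := by
    intro k hk a b
    apply intervalIntegral.tendsto_integral_filter_of_dominated_convergence (fun t => |k t| * C)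
    · exact Filter.Eventually.of_forall fun n => (hk.mul (hf n)).aestronglyMeasurable
    · refine Filter.Eventually.of_forall fun n => Filter.Eventually.of_forall fun t _ => ?_
      rw [Real.norm_eq_abs, abs_mul]
      exact mul_le_mul_of_nonneg_left (hC n t) (abs_nonneg _)
    · exact (by fun_prop : Continuous fun t => |k t| * C).intervalIntegrable _ _
    · exact Filter.Eventually.of_forall fun t _ => (hlim t).const_mul _
  unfold green
  exact ((key _ (by fun_prop) _ _).const_mul _).add ((key _ (by fun_prop) _ _).const_mul _)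

/-- the nonlinearity of the transformed problem -/
noncomputable def FF (k h : ℝ → ℝ) (t v : ℝ) : ℝ := v * (k t * Real.log (max v 1) + h t)

def clamp (L s : ℝ) : ℝ := max (-L) (min s L)

theorem clamp_mem {L : ℝ} (hL : 0 < L) (s : ℝ) : clamp L s ∈ Icc (-L) L := by
  unfold clamp
  exact ⟨le_max_left _ _, max_le (by linarith) (min_le_right _ _)⟩

theorem clamp_of_mem {L s : ℝ} (hs : s ∈ Icc (-L) L) : clamp L s = s := by
  unfold clamp
  rw [min_eq_left hs.2, max_eq_right hs.1]

theorem continuous_clamp (L : ℝ) : Continuous (clamp L) := by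
  unfold clamp; fun_prop

theorem continuous_FF {k h : ℝ → ℝ} (hk : Continuous k) (hh : Continuous h) :
    Continuous (fun p : ℝ × ℝ => FF k h p.1 p.2) := by
  unfold FF
  have h1 : Continuous fun p : ℝ × ℝ => Real.log (max p.2 1) := by
    apply Continuous.log (by fun_prop)
    intro p
    have : (1 : ℝ) ≤ max p.2 1 := le_max_right _ _
    linarith
  fun_prop

theorem FF_mono {k h : ℝ → ℝ} (hk0 : ∀ t, 0 ≤ k t) (hh0 : ∀ t, 0 ≤ h t) {t v w : ℝ} (hv : 1 ≤ v)
    (hvw : v ≤ w) : FF k h t v ≤ FF k h t w := by
  unfold FF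
  have h1 : Real.log (max v 1) ≤ Real.log (max w 1) := by
    apply Real.log_le_log (by positivity) (max_le_max_right _ hvw)
  have h2 : 0 ≤ Real.log (max v 1) := Real.log_nonneg (le_max_right _ _)
  have := hk0 t
  have := hh0 t
  apply mul_le_mul hvw _ (by positivity) (by linarith)
  gcongr

theorem FF_nonneg {k h : ℝ → ℝ} (hk0 : ∀ t, 0 ≤ k t) (hh0 : ∀ t, 0 ≤ h t) {t v : ℝ} (hv : 1 ≤ v) :
    0 ≤ FF k h t v := by
  unfold FF
  have h2 : 0 ≤ Real.log (max v 1) := Real.log_nonneg (le_max_right _ _)
  have := hk0 t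
  have := hh0 t
  positivity

/-- supersolutions -/
def IsSuper (L : ℝ) (k h : ℝ → ℝ) (S : ℝ → ℝ) : Prop :=
  ∃ S1 S2 : ℝ → ℝ, ContinuousOn S (Icc (-L) L) ∧ (∀ s ∈ Ioo (-L) L, HasDerivAt S (S1 s) s) ∧
    (∀ s ∈ Ioo (-L) L, HasDerivAt S1 (S2 s) s) ∧ (∀ s ∈ Ioo (-L) L, FF k h s (S s) ≤ -S2 s) ∧
    ∀ s ∈ Icc (-L) L, 1 ≤ S s

/-- the iteration -/
noncomputable def iter (L : ℝ) (k h : ℝ → ℝ) : ℕ → ℝ → ℝ
  | 0 => fun _ => 1
  | n + 1 => fun s => 1 + green L (fun t => FF k h t (iter L k h n t)) (clamp L s)

/-- minimal solution of the transformed problem -/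
theorem exists_minimal {L : ℝ} (hL : 0 < L) {k h : ℝ → ℝ} (hk : Continuous k) (hh : Continuous h)
    (hk0 : ∀ t, 0 ≤ k t) (hh0 : ∀ t, 0 ≤ h t) {C : ℝ} (hkC : ∀ t, k t ≤ C) (hhC : ∀ t, h t ≤ C)
    {S : ℝ → ℝ} (hS : IsSuper L k h S) :
    ∃ W W1 W2 : ℝ → ℝ, (∀ s, HasDerivAt W (W1 s) s) ∧ (∀ s, HasDerivAt W1 (W2 s) s) ∧
      Continuous W2 ∧ W (-L) = 1 ∧ W L = 1 ∧ (∀ s ∈ Icc (-L) L, 1 ≤ W s) ∧
      (∀ s ∈ Icc (-L) L, -W2 s = FF k h s (W s)) ∧
      ∀ S', IsSuper L k h S' → ∀ s ∈ Icc (-L) L, W s ≤ S' s := by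
  have hFc := continuous_FF hk hh
  have hC0 : 0 ≤ C := (hk0 0).trans (hkC 0)
  have hclc := continuous_clamp L
  -- basic properties of the iterates
  have hfc : ∀ w : ℝ → ℝ, Continuous w → Continuous fun t => FF k h t (w t) := fun w hw =>
    hFc.comp (continuous_id.prodMk hw)
  have hWc : ∀ n, Continuous (iter L k h n) := by
    intro n
    induction n with
    | zero => exact continuous_const
    | succ n ih =>
      have h1 : Continuous (green L (fun t => FF k h t (iter L k h n t))) :=
        continuous_iff_continuousAt.2 fun s => (hasDerivAt_green hL (hfc _ ih) s).continuousAt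
      exact continuous_const.add (h1.comp hclc)
  have hW1 : ∀ n s, 1 ≤ iter L k h n s := by
    intro n
    induction n with
    | zero => intro s; exact le_refl _
    | succ n ih =>
      intro s
      have h1 := green_mono hL (f := fun _ => 0) (g := fun t => FF k h t (iter L k h n t))
        continuous_const (hfc _ (hWc n)) (fun t => FF_nonneg hk0 hh0 (ih t)) (clamp_mem hL s)
      have h2 : green L (fun _ => 0) (clamp L s) = 0 := by simp [green]
      rw [h2] at h1
      change 1 ≤ 1 + green L (fun t => FF k h t (iter L k h n t)) (clamp L s)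
      linarith
  have hmono : ∀ n s, iter L k h n s ≤ iter L k h (n + 1) s := by
    intro n
    induction n with
    | zero => intro s; exact hW1 1 s
    | succ n ih =>
      intro s
      have h1 := green_mono hL (f := fun t => FF k h t (iter L k h n t))
        (g := fun t => FF k h t (iter L k h (n + 1) t)) (hfc _ (hWc n)) (hfc _ (hWc (n + 1)))
        (fun t => FF_mono hk0 hh0 (hW1 n t) (ih t)) (clamp_mem hL s)
      change 1 + green L (fun t => FF k h t (iter L k h n t)) (clamp L s) ≤
        1 + green L (fun t => FF k h t (iter L k h (n + 1) t)) (clamp L s)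
      linarith
  have hclamp : ∀ n s, iter L k h n (clamp L s) = iter L k h n s := by
    intro n s
    cases n with
    | zero => rfl
    | succ n =>
      change 1 + green L _ (clamp L (clamp L s)) = 1 + green L _ (clamp L s)
      rw [clamp_of_mem (clamp_mem hL s)]
  have hsup : ∀ S', IsSuper L k h S' → ∀ n, ∀ s ∈ Icc (-L) L, iter L k h n s ≤ S' s := by
    rintro S' ⟨S1, S2, hSc, hd1, hd2, hde, hS1⟩ n
    induction n with
    | zero => intro s hs; exact hS1 s hs
    | succ n ih =>
      intro s hs
      have hg := hfc _ (hWc n)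
      have h1 := maxp hL (D := fun s => S' s - (1 + green L (fun t => FF k h t (iter L k h n t)) s))
        (D1 := fun s => S1 s - green1 L (fun t => FF k h t (iter L k h n t)) s)
        (D2 := fun s => S2 s - (-(FF k h s (iter L k h n s))))
        (by
          apply hSc.sub
          apply (continuous_const.add _).continuousOn
          exact continuous_iff_continuousAt.2 fun s => (hasDerivAt_green hL hg s).continuousAt)
        (by
          intro s hs
          exact (hd1 s hs).sub ((hasDerivAt_green hL hg s).const_add 1))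
        (by
          intro s hs
          exact (hd2 s hs).sub (hasDerivAt_green1 hL hg s))
        (by
          intro s hs
          have h2 := hde s hs
          have h3 := FF_mono hk0 hh0 (t := s) (hW1 n s) (ih s (Ioo_subset_Icc_self hs))
          linarith)
        (by
          rw [green_left]
          have := hS1 (-L) (left_mem_Icc.2 (by linarith))
          linarith)
        (by
          rw [green_right]
          have := hS1 L (right_mem_Icc.2 (by linarith))
          linarith) s hs
      change 1 + green L (fun t => FF k h t (iter L k h n t)) (clamp L s) ≤ S' s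
      rw [clamp_of_mem hs]
      linarith
  -- a uniform bound
  obtain ⟨M, hM⟩ : ∃ M : ℝ, ∀ s ∈ Icc (-L) L, S s ≤ M := by
    obtain ⟨S1, S2, hSc, _⟩ := hS
    obtain ⟨M, hM⟩ := isCompact_Icc.exists_bound_of_continuousOn hSc
    exact ⟨M, fun s hs => (le_abs_self _).trans (hM s hs)⟩
  have hbd : ∀ n s, iter L k h n s ≤ M := by
    intro n s
    rw [← hclamp]
    exact (hsup S hS n _ (clamp_mem hL s)).trans (hM _ (clamp_mem hL s))
  have hbdd : ∀ s, BddAbove (range fun n => iter L k h n s) := by
    intro s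
    refine ⟨M, ?_⟩
    rintro _ ⟨n, rfl⟩
    exact hbd n s
  set W : ℝ → ℝ := fun s => ⨆ n, iter L k h n s with hW
  have hlim : ∀ s, Tendsto (fun n => iter L k h n s) atTop (𝓝 (W s)) := fun s =>
    tendsto_atTop_ciSup (monotone_nat_of_le_succ fun n => hmono n s) (hbdd s)
  have hWge : ∀ s, 1 ≤ W s := fun s => ge_of_tendsto' (hlim s) (fun n => hW1 n s)
  have hWle : ∀ s, W s ≤ M := fun s => le_of_tendsto' (hlim s) (fun n => hbd n s)
  have hM1 : 1 ≤ M := (hWge 0).trans (hWle 0)
  have hFb : ∀ t v, 1 ≤ v → v ≤ M → |FF k h t v| ≤ M * (C * Real.log M + C) := by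
    intro t v h1 h2
    rw [abs_of_nonneg (FF_nonneg hk0 hh0 h1)]
    unfold FF
    have h3 : Real.log (max v 1) ≤ Real.log M := by
      apply Real.log_le_log (by positivity) (max_le h2 hM1)
    have h4 : 0 ≤ Real.log (max v 1) := Real.log_nonneg (le_max_right _ _)
    have := hk0 t
    have := hh0 t
    have := hkC t
    have := hhC t
    gcongr
  have hWm : Measurable W := measurable_of_tendsto_metrizable (fun n => (hWc n).measurable)
    (tendsto_pi_nhds.2 hlim)
  set f : ℝ → ℝ := fun t => FF k h t (W t) with hf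
  have hfm : Measurable f := hFc.measurable.comp (measurable_id.prodMk hWm)
  have hflim : ∀ t, Tendsto (fun n => FF k h t (iter L k h n t)) atTop (𝓝 (f t)) := by
    intro t
    have h1 : Continuous fun v => FF k h t v := hFc.comp (continuous_const.prodMk continuous_id)
    exact (h1.tendsto _).comp (hlim t)
  have hfb : ∀ t, |f t| ≤ M * (C * Real.log M + C) := fun t => hFb t _ (hWge t) (hWle t)
  have heq : ∀ s, W s = 1 + green L f (clamp L s) := by
    intro s
    have h1 := tendsto_green (L := L) (f := fun n t => FF k h t (iter L k h n t)) (g := f)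
      (fun n => hfc _ (hWc n)) (fun n t => hFb t _ (hW1 n t) (hbd n t)) hflim (clamp L s)
    have h2 : Tendsto (fun n => iter L k h (n + 1) s) atTop (𝓝 (1 + green L f (clamp L s))) :=
      h1.const_add 1
    exact tendsto_nhds_unique ((tendsto_add_atTop_iff_nat 1).2 (hlim s)) h2
  have hWcont : Continuous W := by
    have e : W = fun s => 1 + green L f (clamp L s) := funext heq
    rw [e]
    exact continuous_const.add ((continuous_green hfm hfb).comp hclc)
  have hfcont : Continuous f := hfc _ hWcont
  have heq' : ∀ s ∈ Icc (-L) L, 1 + green L f s = W s := by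
    intro s hs
    rw [heq s, clamp_of_mem hs]
  refine ⟨fun s => 1 + green L f s, green1 L f, fun s => -f s, ?_, ?_, hfcont.neg, ?_, ?_, ?_, ?_, ?_⟩
  · intro s
    exact (hasDerivAt_green hL hfcont s).const_add 1
  · intro s
    exact hasDerivAt_green1 hL hfcont s
  · simp [green_left]
  · simp [green_right]
  · intro s hs
    change 1 ≤ 1 + green L f s
    rw [heq' s hs]
    exact hWge s
  · intro s hs
    change -(-f s) = FF k h s (1 + green L f s)
    rw [heq' s hs, neg_neg]
  · intro S' hS' s hs
    change 1 + green L f s ≤ S' s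
    rw [heq' s hs]
    exact le_of_tendsto' (hlim s) (fun n => hsup S' hS' n s hs)

end Pool.Agent.Work.MP_6d3bed_an
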