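import Mathlib
import Pool.Agent.Work.MP_6d3bed_an.OneD

set_option autoImplicit false

open MeasureTheory Filter Topology Set

namespace Pool.Agent.Work.MP_6d3bed_an

/-- bump -/
noncomputable def Bf (t : ℝ) : ℝ := max 0 (1 - t ^ 2)

theorem continuous_Bf : Continuous Bf := by unfold Bf; fun_prop

theorem Bf_nonneg (t : ℝ) : 0 ≤ Bf t := le_max_left _ _

theorem Bf_of_le {t : ℝ} (h1 : -1 ≤ t) (h2 : t ≤ 1) : Bf t = 1 - t ^ 2 := by
  unfold Bf
  apply max_eq_right
  nlinarith

theorem Bf_zero_of_one_le {t : ℝ} (h : 1 ≤ t) : Bf t = 0 := by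
  unfold Bf
  apply max_eq_left
  nlinarith

theorem Bf_zero_of_le {t : ℝ} (h : t ≤ -1) : Bf t = 0 := by
  unfold Bf
  apply max_eq_left
  nlinarith

theorem Bf_neg (t : ℝ) : Bf (-t) = Bf t := by
  unfold Bf
  rw [neg_sq]

noncomputable def be1 (t : ℝ) : ℝ := ∫ x in (-1)..t, Bf x

theorem hasDerivAt_be1 (t : ℝ) : HasDerivAt be1 (Bf t) t :=
  intervalIntegral.integral_hasDerivAt_right (continuous_Bf.intervalIntegrable _ _)
    (continuous_Bf.stronglyMeasurableAtFilter _ _) continuous_Bf.continuousAt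

theorem continuous_be1 : Continuous be1 :=
  continuous_iff_continuousAt.2 fun s => (hasDerivAt_be1 s).continuousAt

noncomputable def be (t : ℝ) : ℝ := ∫ x in (-1)..t, be1 x

theorem hasDerivAt_be (t : ℝ) : HasDerivAt be (be1 t) t :=
  intervalIntegral.integral_hasDerivAt_right (continuous_be1.intervalIntegrable _ _)
    (continuous_be1.stronglyMeasurableAtFilter _ _) continuous_be1.continuousAt

theorem be1_of_le {t : ℝ} (h : t ≤ -1) : be1 t = 0 := by
  unfold be1
  rw [intervalIntegral.integral_congr (g := fun _ => 0)]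
  · simp
  · intro x hx
    rw [uIcc_of_ge h] at hx
    exact Bf_zero_of_le hx.2

theorem be1_mid {t : ℝ} (h1 : -1 ≤ t) (h2 : t ≤ 1) : be1 t = t - t ^ 3 / 3 + 2 / 3 := by
  unfold be1
  rw [intervalIntegral.integral_congr (g := fun x => 1 - x ^ 2)]
  · rw [intervalIntegral.integral_sub (by simp) (by simp), integral_pow]
    simp
    ring
  · intro x hx
    rw [uIcc_of_le h1] at hx
    exact Bf_of_le hx.1 (hx.2.trans h2)

theorem be1_of_ge {t : ℝ} (h : 1 ≤ t) : be1 t = 4 / 3 := by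
  have h1 : be1 t = be1 1 + ∫ x in (1 : ℝ)..t, Bf x := by
    unfold be1
    rw [intervalIntegral.integral_add_adjacent_intervals
      (continuous_Bf.intervalIntegrable _ _) (continuous_Bf.intervalIntegrable _ _)]
  have h2 : ∫ x in (1 : ℝ)..t, Bf x = 0 := by
    rw [intervalIntegral.integral_congr (g := fun _ => 0)]
    · simp
    · intro x hx
      rw [uIcc_of_le h] at hx
      exact Bf_zero_of_one_le hx.1
  rw [h1, h2, be1_mid (by norm_num) le_rfl]
  norm_num

theorem be_of_le {t : ℝ} (h : t ≤ -1) : be t = 0 := by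
  unfold be
  rw [intervalIntegral.integral_congr (g := fun _ => 0)]
  · simp
  · intro x hx
    rw [uIcc_of_ge h] at hx
    exact be1_of_le hx.2

theorem be_mid {t : ℝ} (h1 : -1 ≤ t) (h2 : t ≤ 1) :
    be t = t ^ 2 / 2 - t ^ 4 / 12 + 2 * t / 3 + 1 / 4 := by
  have key : ∀ x ∈ Set.uIcc (-1) t, HasDerivAt
      (fun x : ℝ => x ^ 2 / 2 - x ^ 4 / 12 + 2 * x / 3 + 1 / 4) (be1 x) x := by
    intro x hx
    rw [uIcc_of_le h1] at hx
    rw [be1_mid hx.1 (hx.2.trans h2)]
    have e1 : HasDerivAt (fun x : ℝ => x ^ 2 / 2) (2 * x / 2) x := by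
      simpa using (hasDerivAt_pow 2 x).div_const 2
    have e2 : HasDerivAt (fun x : ℝ => x ^ 4 / 12) (4 * x ^ 3 / 12) x := by
      simpa using (hasDerivAt_pow 4 x).div_const 12
    have e3 : HasDerivAt (fun x : ℝ => 2 * x / 3) (2 / 3) x := by
      simpa using ((hasDerivAt_id x).const_mul 2).div_const 3
    refine (((e1.sub e2).add e3).add_const (1 / 4)).congr_deriv ?_
    ring
  unfold be
  rw [intervalIntegral.integral_eq_sub_of_hasDerivAt key (continuous_be1.intervalIntegrable _ _)]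
  norm_num

theorem be_of_ge {t : ℝ} (h : 1 ≤ t) : be t = 4 * t / 3 := by
  have h1 : be t = be 1 + ∫ x in (1 : ℝ)..t, be1 x := by
    unfold be
    rw [intervalIntegral.integral_add_adjacent_intervals
      (continuous_be1.intervalIntegrable _ _) (continuous_be1.intervalIntegrable _ _)]
  have h2 : ∫ x in (1 : ℝ)..t, be1 x = 4 / 3 * (t - 1) := by
    rw [intervalIntegral.integral_congr (g := fun _ => 4 / 3)]
    · simp; ring
    · intro x hx
      rw [uIcc_of_le h] at hx
      exact be1_of_ge hx.1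
  rw [h1, h2, be_mid (by norm_num) le_rfl]
  ring

/-- the asymmetric solution -/
noncomputable def VV (s : ℝ) : ℝ :=
  29 / 2 + s / 10 - 27 / 400 * be (s + 125) - 27 / 100 * be (s - 125)

noncomputable def VV1 (s : ℝ) : ℝ :=
  1 / 10 - 27 / 400 * be1 (s + 125) - 27 / 100 * be1 (s - 125)

noncomputable def VV2 (s : ℝ) : ℝ := -(27 / 400 * Bf (s + 125)) - 27 / 100 * Bf (s - 125)

theorem hasDerivAt_VV (s : ℝ) : HasDerivAt VV (VV1 s) s := by
  have h1 : HasDerivAt (fun s => be (s + 125)) (be1 (s + 125)) s :=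
    (hasDerivAt_be (s + 125)).comp_add_const s 125
  have h2 : HasDerivAt (fun s => be (s - 125)) (be1 (s - 125)) s :=
    (hasDerivAt_be (s - 125)).comp_sub_const s 125
  have h3 : HasDerivAt (fun s : ℝ => 29 / 2 + s / 10) (1 / 10) s :=
    ((hasDerivAt_id s).div_const 10).const_add _
  exact (h3.sub (h1.const_mul _)).sub (h2.const_mul _)

theorem hasDerivAt_VV1 (s : ℝ) : HasDerivAt VV1 (VV2 s) s := by
  have h1 : HasDerivAt (fun s => be1 (s + 125)) (Bf (s + 125)) s :=
    (hasDerivAt_be1 (s + 125)).comp_add_const s 125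
  have h2 : HasDerivAt (fun s => be1 (s - 125)) (Bf (s - 125)) s :=
    (hasDerivAt_be1 (s - 125)).comp_sub_const s 125
  exact ((h1.const_mul _).const_sub _).sub (h2.const_mul _)

theorem continuous_VV : Continuous VV :=
  continuous_iff_continuousAt.2 fun s => (hasDerivAt_VV s).continuousAt

theorem continuous_VV2 : Continuous VV2 := by
  have h := continuous_Bf
  unfold VV2
  fun_prop

theorem VV_left : VV (-135) = 1 := by
  unfold VV
  rw [be_of_le (by norm_num), be_of_le (by norm_num)]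
  norm_num

theorem VV_right : VV 135 = 1 := by
  unfold VV
  rw [be_of_ge (by norm_num), be_of_ge (by norm_num)]
  norm_num

theorem VV_ge_one : ∀ s ∈ Icc (-135 : ℝ) 135, 1 ≤ VV s := by
  have h := maxp (L := 135) (by norm_num) (D := fun s => VV s - 1) (D1 := VV1) (D2 := VV2)
    (continuous_VV.sub continuous_const).continuousOn
    (fun s _ => (hasDerivAt_VV s).sub_const 1) (fun s _ => hasDerivAt_VV1 s)
    (by
      intro s _
      unfold VV2
      have h1 := Bf_nonneg (s + 125)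
      have h2 := Bf_nonneg (s - 125)
      linarith)
    (by rw [VV_left]; norm_num) (by rw [VV_right]; norm_num)
  intro s hs
  have := h s hs
  linarith

/-- values in the wells -/
noncomputable def Rp (t : ℝ) : ℝ :=
  4.4325 - 0.17 * t - 0.135 * t ^ 2 + 0.0225 * t ^ 4

noncomputable def Lp' (t : ℝ) : ℝ :=
  1.983125 - 0.055 * t - 0.03375 * t ^ 2 + 0.005625 * t ^ 4

theorem VV_rwell {t : ℝ} (h1 : -1 ≤ t) (h2 : t ≤ 1) : VV (125 + t) = Rp t := by
  unfold VV Rp
  rw [be_of_ge (by linarith), show 125 + t - 125 = t by ring, be_mid h1 h2]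
  ring

theorem VV_lwell {t : ℝ} (h1 : -1 ≤ t) (h2 : t ≤ 1) : VV (-(125 + t)) = Lp' t := by
  unfold VV Lp'
  rw [show -(125 + t) + 125 = -t by ring, be_mid (by linarith) (by linarith),
    be_of_le (by linarith)]
  ring

theorem Rp_ge {t : ℝ} (h1 : -1 ≤ t) (h2 : t ≤ 1) : 4.15 ≤ Rp t := by
  unfold Rp
  have e : 4.4325 - 0.17 * t - 0.135 * t ^ 2 + 0.0225 * t ^ 4 - 4.15 =
    (1 - t) * (0.2825 + 0.1125 * t - 0.0225 * t ^ 2 - 0.0225 * t ^ 3) := by ring
  have h3 : 0 ≤ 0.2825 + 0.1125 * t - 0.0225 * t ^ 2 - 0.0225 * t ^ 3 := by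
    nlinarith [mul_nonneg (by linarith : (0:ℝ) ≤ 1 - t) (by linarith : (0:ℝ) ≤ 1 + t)]
  nlinarith [mul_nonneg (by linarith : (0:ℝ) ≤ 1 - t) h3]

theorem Rp_le {t : ℝ} (h1 : -1 ≤ t) (h2 : t ≤ 1) : Rp t ≤ 4.5 := by
  unfold Rp
  have h3 : t ^ 4 ≤ t ^ 2 := by nlinarith [mul_nonneg (by linarith : (0:ℝ) ≤ 1 - t) (by linarith : (0:ℝ) ≤ 1 + t), sq_nonneg t]
  nlinarith [sq_nonneg (t + 0.75)]

theorem Lp_ge {t : ℝ} (h1 : -1 ≤ t) (h2 : t ≤ 1) : 1.9 ≤ Lp' t := by
  unfold Lp'
  have e : 1.983125 - 0.055 * t - 0.03375 * t ^ 2 + 0.005625 * t ^ 4 - 1.9 =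
    (1 - t) * (0.083125 + 0.028125 * t - 0.005625 * t ^ 2 - 0.005625 * t ^ 3) := by ring
  have h3 : 0 ≤ 0.083125 + 0.028125 * t - 0.005625 * t ^ 2 - 0.005625 * t ^ 3 := by
    nlinarith [mul_nonneg (by linarith : (0:ℝ) ≤ 1 - t) (by linarith : (0:ℝ) ≤ 1 + t)]
  nlinarith [mul_nonneg (by linarith : (0:ℝ) ≤ 1 - t) h3]

theorem Lp_le {t : ℝ} (h1 : -1 ≤ t) (h2 : t ≤ 1) : Lp' t ≤ 2.01 := by
  unfold Lp'
  have e : 2.01 - (1.983125 - 0.055 * t - 0.03375 * t ^ 2 + 0.005625 * t ^ 4) =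
    (1 + t) * (0.026875 + 0.028125 * t + 0.005625 * t ^ 2 - 0.005625 * t ^ 3) := by ring
  have h3 : 0 ≤ 0.026875 + 0.028125 * t + 0.005625 * t ^ 2 - 0.005625 * t ^ 3 := by
    have : 0.026875 + 0.028125 * t + 0.005625 * t ^ 2 - 0.005625 * t ^ 3 =
      0.01 + (1 + t) * (0.016875 + 0.01125 * t - 0.005625 * t ^ 2) := by ring
    rw [this]
    have h4 : 0 ≤ 0.016875 + 0.01125 * t - 0.005625 * t ^ 2 := by nlinarith
    nlinarith [mul_nonneg (by linarith : (0:ℝ) ≤ 1 + t) h4]
  nlinarith [mul_nonneg (by linarith : (0:ℝ) ≤ 1 + t) h3]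

noncomputable def tau (s : ℝ) : ℝ := max (-1) (min (|s| - 125) 1)

theorem tau_ge (s : ℝ) : -1 ≤ tau s := le_max_left _ _

theorem tau_le (s : ℝ) : tau s ≤ 1 := max_le (by norm_num) (min_le_right _ _)

theorem tau_of {s t : ℝ} (h1 : -1 ≤ t) (h2 : t ≤ 1) (hs : |s| = 125 + t) : tau s = t := by
  unfold tau
  rw [hs, show 125 + t - 125 = t by ring, min_eq_left h2, max_eq_right h1]

theorem continuous_tau : Continuous tau := by unfold tau; fun_prop

noncomputable def Rt (s : ℝ) : ℝ := Rp (tau s)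

noncomputable def Lt (s : ℝ) : ℝ := Lp' (tau s)

theorem Rt_ge (s : ℝ) : 4.15 ≤ Rt s := Rp_ge (tau_ge s) (tau_le s)
theorem Rt_le (s : ℝ) : Rt s ≤ 4.5 := Rp_le (tau_ge s) (tau_le s)
theorem Lt_ge (s : ℝ) : 1.9 ≤ Lt s := Lp_ge (tau_ge s) (tau_le s)
theorem Lt_le (s : ℝ) : Lt s ≤ 2.01 := Lp_le (tau_ge s) (tau_le s)
theorem Rt_pos (s : ℝ) : 0 < Rt s := by linarith [Rt_ge s]
theorem Lt_pos (s : ℝ) : 0 < Lt s := by linarith [Lt_ge s]

theorem continuous_Rt : Continuous Rt := by
  have := continuous_tau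
  unfold Rt Rp
  fun_prop

theorem continuous_Lt : Continuous Lt := by
  have := continuous_tau
  unfold Lt Lp'
  fun_prop

theorem logdiff (s : ℝ) : 1 - Lt s / Rt s ≤ Real.log (Rt s) - Real.log (Lt s) := by
  rw [← Real.log_div (Rt_pos s).ne' (Lt_pos s).ne']
  have h := Real.one_sub_inv_le_log_of_pos (div_pos (Rt_pos s) (Lt_pos s))
  rwa [inv_div] at h

theorem logdiff_half (s : ℝ) : 1 / 2 ≤ Real.log (Rt s) - Real.log (Lt s) := by
  have h1 := logdiff s
  have h2 : Lt s / Rt s ≤ 1 / 2 := by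
    rw [div_le_iff₀ (Rt_pos s)]
    linarith [Lt_le s, Rt_ge s]
  linarith

noncomputable def ct (s : ℝ) : ℝ :=
  27 / 400 * Bf (|s| - 125) * ((4 / Rt s - 1 / Lt s) / (Real.log (Rt s) - Real.log (Lt s)))

noncomputable def ht (s : ℝ) : ℝ :=
  27 / 400 * Bf (|s| - 125) *
    ((Real.log (Rt s) / Lt s - 4 * Real.log (Lt s) / Rt s) / (Real.log (Rt s) - Real.log (Lt s)))

theorem continuous_ct : Continuous ct := by
  have h1 := continuous_Bf
  have h2 := continuous_Rt
  have h3 := continuous_Lt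
  have h4 : Continuous fun s => Real.log (Rt s) := h2.log fun s => (Rt_pos s).ne'
  have h5 : Continuous fun s => Real.log (Lt s) := h3.log fun s => (Lt_pos s).ne'
  unfold ct
  refine Continuous.mul (by fun_prop) (Continuous.div (Continuous.sub ?_ ?_) (by fun_prop) ?_)
  · exact continuous_const.div h2 fun s => (Rt_pos s).ne'
  · exact continuous_const.div h3 fun s => (Lt_pos s).ne'
  · intro s
    have := logdiff_half s
    intro h
    rw [h] at this
    norm_num at this

theorem continuous_ht : Continuous ht := by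
  have h1 := continuous_Bf
  have h2 := continuous_Rt
  have h3 := continuous_Lt
  have h4 : Continuous fun s => Real.log (Rt s) := h2.log fun s => (Rt_pos s).ne'
  have h5 : Continuous fun s => Real.log (Lt s) := h3.log fun s => (Lt_pos s).ne'
  unfold ht
  refine Continuous.mul (by fun_prop) (Continuous.div (Continuous.sub ?_ ?_) (by fun_prop) ?_)
  · exact h4.div h3 fun s => (Lt_pos s).ne'
  · exact (continuous_const.mul h5).div h2 fun s => (Rt_pos s).ne'
  · intro s
    have := logdiff_half s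
    intro h
    rw [h] at this
    norm_num at this

theorem cfac_pos (s : ℝ) :
    0 < (4 / Rt s - 1 / Lt s) / (Real.log (Rt s) - Real.log (Lt s)) := by
  have h1 := logdiff_half s
  apply div_pos _ (by linarith)
  rw [sub_pos, div_lt_div_iff₀ (Lt_pos s) (Rt_pos s)]
  linarith [Rt_le s, Lt_ge s]

theorem hfac_pos (s : ℝ) :
    0 < (Real.log (Rt s) / Lt s - 4 * Real.log (Lt s) / Rt s) /
      (Real.log (Rt s) - Real.log (Lt s)) := by
  have h1 := logdiff_half s
  apply div_pos _ (by linarith)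
  rw [sub_pos, div_lt_div_iff₀ (Rt_pos s) (Lt_pos s)]
  -- `4 L log L < R log R`
  have hR := Rt_ge s
  have hL := Lt_le s
  have hL' := Lt_ge s
  have hlq : 0 < Real.log 2.01 := Real.log_pos (by norm_num)
  have h2 : Real.log (Lt s) ≤ Real.log 2.01 := Real.log_le_log (Lt_pos s) hL
  have h3 : 2 * Real.log 2.01 ≤ Real.log (Rt s) := by
    have e : 2 * Real.log 2.01 = Real.log (2.01 ^ 2) := by
      rw [Real.log_pow]; norm_num
    rw [e]
    apply Real.log_le_log (by norm_num)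
    refine le_trans ?_ hR
    norm_num
  have h4 : 0 ≤ Real.log (Lt s) := Real.log_nonneg (by linarith)
  calc 4 * Real.log (Lt s) * Lt s ≤ 4 * Real.log 2.01 * 2.01 := by gcongr
    _ < (2 * Real.log 2.01) * 4.15 := by nlinarith
    _ ≤ Real.log (Rt s) * Rt s := by gcongr; linarith

theorem ct_nonneg (s : ℝ) : 0 ≤ ct s := by
  unfold ct
  have := cfac_pos s
  have := Bf_nonneg (|s| - 125)
  positivity

theorem ht_nonneg (s : ℝ) : 0 ≤ ht s := by
  unfold ht
  have := hfac_pos s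
  have := Bf_nonneg (|s| - 125)
  positivity

theorem ct_pos {s : ℝ} (h1 : 124 < |s|) (h2 : |s| < 126) : 0 < ct s := by
  unfold ct
  have := cfac_pos s
  have h3 : 0 < Bf (|s| - 125) := by
    rw [Bf_of_le (by linarith) (by linarith)]
    nlinarith
  positivity

theorem ht_pos {s : ℝ} (h1 : 124 < |s|) (h2 : |s| < 126) : 0 < ht s := by
  unfold ht
  have := hfac_pos s
  have h3 : 0 < Bf (|s| - 125) := by
    rw [Bf_of_le (by linarith) (by linarith)]
    nlinarith
  positivity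

theorem Bf_le_one (t : ℝ) : Bf t ≤ 1 := by
  unfold Bf
  apply max_le (by norm_num)
  nlinarith [sq_nonneg t]

theorem ct_le (s : ℝ) : ct s ≤ 1 := by
  unfold ct
  have h1 := logdiff_half s
  have h2 := cfac_pos s
  have h3 := Bf_nonneg (|s| - 125)
  have h4 := Bf_le_one (|s| - 125)
  have h5 : (4 / Rt s - 1 / Lt s) / (Real.log (Rt s) - Real.log (Lt s)) ≤ 2 := by
    rw [div_le_iff₀ (by linarith)]
    have h6 : 4 / Rt s ≤ 1 := by
      rw [div_le_one (Rt_pos s)]
      linarith [Rt_ge s]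
    have h7 : 0 ≤ 1 / Lt s := by have := Lt_pos s; positivity
    linarith
  calc 27 / 400 * Bf (|s| - 125) * ((4 / Rt s - 1 / Lt s) / (Real.log (Rt s) - Real.log (Lt s)))
      ≤ 27 / 400 * 1 * 2 := by gcongr
    _ ≤ 1 := by norm_num

theorem ht_le (s : ℝ) : ht s ≤ 1 := by
  unfold ht
  have h1 := logdiff_half s
  have h2 := hfac_pos s
  have h3 := Bf_nonneg (|s| - 125)
  have h4 := Bf_le_one (|s| - 125)
  have h5 : (Real.log (Rt s) / Lt s - 4 * Real.log (Lt s) / Rt s) /
      (Real.log (Rt s) - Real.log (Lt s)) ≤ 10 := by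
    rw [div_le_iff₀ (by linarith)]
    have h6 : Real.log (Rt s) / Lt s ≤ 4.5 := by
      rw [div_le_iff₀ (Lt_pos s)]
      have := Real.log_le_sub_one_of_pos (Rt_pos s)
      nlinarith [Rt_le s, Lt_ge s]
    have h7 : 0 ≤ 4 * Real.log (Lt s) / Rt s := by
      have := Rt_pos s
      have : 0 ≤ Real.log (Lt s) := Real.log_nonneg (by linarith [Lt_ge s])
      positivity
    linarith
  calc 27 / 400 * Bf (|s| - 125) * ((Real.log (Rt s) / Lt s - 4 * Real.log (Lt s) / Rt s) /
      (Real.log (Rt s) - Real.log (Lt s))) ≤ 27 / 400 * 1 * 10 := by gcongr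
    _ ≤ 1 := by norm_num

theorem eq_R (s : ℝ) : Rt s * (ct s * Real.log (Rt s) + ht s) = 27 / 100 * Bf (|s| - 125) := by
  have h1 := logdiff_half s
  have h2 := Rt_pos s
  have h3 := Lt_pos s
  have h4 : Real.log (Rt s) - Real.log (Lt s) ≠ 0 := by
    intro h
    rw [h] at h1
    norm_num at h1
  unfold ct ht
  field_simp
  ring

theorem eq_L (s : ℝ) : Lt s * (ct s * Real.log (Lt s) + ht s) = 27 / 400 * Bf (|s| - 125) := by
  have h1 := logdiff_half s
  have h2 := Rt_pos s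
  have h3 := Lt_pos s
  have h4 : Real.log (Rt s) - Real.log (Lt s) ≠ 0 := by
    intro h
    rw [h] at h1
    norm_num at h1
  unfold ct ht
  field_simp
  ring

theorem ct_zero {s : ℝ} (h : ¬ (124 ≤ |s| ∧ |s| ≤ 126)) : ct s = 0 := by
  have hB : Bf (|s| - 125) = 0 := by
    rcases not_and_or.1 h with h | h
    · exact Bf_zero_of_le (by linarith [not_le.1 h])
    · exact Bf_zero_of_one_le (by linarith [not_le.1 h])
  unfold ct
  rw [hB]; ring

theorem ht_zero {s : ℝ} (h : ¬ (124 ≤ |s| ∧ |s| ≤ 126)) : ht s = 0 := by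
  have hB : Bf (|s| - 125) = 0 := by
    rcases not_and_or.1 h with h | h
    · exact Bf_zero_of_le (by linarith [not_le.1 h])
    · exact Bf_zero_of_one_le (by linarith [not_le.1 h])
  unfold ht
  rw [hB]; ring

/-- case distinction for a point of the line -/
theorem cases_s (s : ℝ) : (∃ t, -1 ≤ t ∧ t ≤ 1 ∧ s = 125 + t) ∨ (∃ t, -1 ≤ t ∧ t ≤ 1 ∧ s = -(125 + t)) ∨
    (¬ (124 ≤ |s| ∧ |s| ≤ 126) ∧ Bf (s + 125) = 0 ∧ Bf (s - 125) = 0) := by
  by_cases h : 124 ≤ |s| ∧ |s| ≤ 126
  · rcases le_total 0 s with h0 | h0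
    · rw [abs_of_nonneg h0] at h
      exact Or.inl ⟨s - 125, by linarith, by linarith, by ring⟩
    · rw [abs_of_nonpos h0] at h
      exact Or.inr (Or.inl ⟨-s - 125, by linarith, by linarith, by ring⟩)
  · refine Or.inr (Or.inr ⟨h, ?_, ?_⟩)
    · by_contra hB
      have h1 : ¬ (1 ≤ s + 125) := fun h => hB (Bf_zero_of_one_le h)
      have h2 : ¬ (s + 125 ≤ -1) := fun h => hB (Bf_zero_of_le h)
      apply h
      rw [abs_of_nonpos (by linarith)]
      constructor <;> linarith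
    · by_contra hB
      have h1 : ¬ (1 ≤ s - 125) := fun h => hB (Bf_zero_of_one_le h)
      have h2 : ¬ (s - 125 ≤ -1) := fun h => hB (Bf_zero_of_le h)
      apply h
      rw [abs_of_nonneg (by linarith)]
      constructor <;> linarith

theorem VV_eq (s : ℝ) : -VV2 s = VV s * (ct s * Real.log (VV s) + ht s) := by
  rcases cases_s s with ⟨t, h1, h2, rfl⟩ | ⟨t, h1, h2, rfl⟩ | ⟨h1, h2, h3⟩
  · have hab : |125 + t| = 125 + t := abs_of_nonneg (by linarith)
    have e : VV (125 + t) = Rt (125 + t) := by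
      rw [VV_rwell h1 h2]; unfold Rt; rw [tau_of h1 h2 hab]
    rw [e, eq_R, hab]
    unfold VV2
    rw [Bf_zero_of_one_le (by linarith : (1 : ℝ) ≤ 125 + t + 125)]
    ring
  · have hab : |-(125 + t)| = 125 + t := by
      rw [abs_neg]; exact abs_of_nonneg (by linarith)
    have e : VV (-(125 + t)) = Lt (-(125 + t)) := by
      rw [VV_lwell h1 h2]; unfold Lt; rw [tau_of h1 h2 hab]
    rw [e, eq_L, hab]
    unfold VV2
    rw [Bf_zero_of_le (by linarith : -(125 + t) - 125 ≤ -1),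
      show -(125 + t) + 125 = -t by ring, Bf_neg, show 125 + t - 125 = t by ring]
    ring
  · rw [ct_zero h1, ht_zero h1]
    unfold VV2
    rw [h2, h3]
    ring

theorem ct_neg (s : ℝ) : ct (-s) = ct s := by
  unfold ct Rt Lt tau
  rw [abs_neg]

theorem ht_neg (s : ℝ) : ht (-s) = ht s := by
  unfold ht Rt Lt tau
  rw [abs_neg]

/-- Barta function -/
theorem barta_pt {s : ℝ} : 11 / 10 * ct s * (VV s + VV (-s) - 3 / 2) ≤ -(VV2 s + VV2 (-s)) := by
  have key : ∀ t : ℝ, -1 ≤ t → t ≤ 1 →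
      11 / 10 * ct (125 + t) * (Rp t + Lp' t - 3 / 2) ≤ 27 / 80 * Bf t := by
    intro t h1 h2
    have hab : |125 + t| = 125 + t := abs_of_nonneg (by linarith)
    have eR : Rp t = Rt (125 + t) := by unfold Rt; rw [tau_of h1 h2 hab]
    have eL : Lp' t = Lt (125 + t) := by unfold Lt; rw [tau_of h1 h2 hab]
    rw [eR, eL]
    have hR1 := Rt_ge (125 + t)
    have hR2 := Rt_le (125 + t)
    have hL1 := Lt_ge (125 + t)
    have hL2 := Lt_le (125 + t)
    have hRp := Rt_pos (125 + t)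
    have hLp := Lt_pos (125 + t)
    have hld := logdiff (125 + t)
    have hlh := logdiff_half (125 + t)
    have hB := Bf_nonneg t
    unfold ct
    rw [hab, show 125 + t - 125 = t by ring]
    set R := Rt (125 + t) with hR
    set Lf := Lt (125 + t) with hLf
    set D := Real.log R - Real.log Lf with hD
    have hDpos : 0 < D := by linarith
    have m : 11 / 10 * ((4 / R - 1 / Lf) / D) * (R + Lf - 3 / 2) ≤ 5 := by
      have h3 : 4 - R / Lf ≤ 1.9354 := by
        have : 4.15 / 2.01 ≤ R / Lf := by gcongr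
        have h4 : (2.0646 : ℝ) ≤ 4.15 / 2.01 := by norm_num
        linarith
      have h5 : 0 ≤ 4 - R / Lf := by
        rw [sub_nonneg, div_le_iff₀ hLp]
        linarith
      have h6 : 11 / 10 * (4 - R / Lf) * (R + Lf - 3 / 2) ≤ 5 * (R - Lf) := by
        calc 11 / 10 * (4 - R / Lf) * (R + Lf - 3 / 2) ≤ 11 / 10 * 1.9354 * (4.5 + 2.01 - 3 / 2) := by
              gcongr
              linarith
          _ ≤ 5 * (4.15 - 2.01) := by norm_num
          _ ≤ 5 * (R - Lf) := by gcongr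
      have e1 : (4 / R - 1 / Lf) / D = (4 - R / Lf) / (R * D) := by
        field_simp
      rw [e1]
      have e2 : 11 / 10 * ((4 - R / Lf) / (R * D)) * (R + Lf - 3 / 2) =
          (11 / 10 * (4 - R / Lf) * (R + Lf - 3 / 2)) / (R * D) := by ring
      rw [e2, div_le_iff₀ (by positivity)]
      refine h6.trans ?_
      have h7 : R - Lf ≤ R * D := by
        have h8 : R * (1 - Lf / R) ≤ R * D := mul_le_mul_of_nonneg_left hld hRp.le
        have h9 : R * (1 - Lf / R) = R - Lf := by field_simp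
        linarith
      linarith
    calc 11 / 10 * (27 / 400 * Bf t * ((4 / R - 1 / Lf) / D)) * (R + Lf - 3 / 2)
        = (27 / 400 * Bf t) * (11 / 10 * ((4 / R - 1 / Lf) / D) * (R + Lf - 3 / 2)) := by ring
      _ ≤ (27 / 400 * Bf t) * 5 := by gcongr
      _ = 27 / 80 * Bf t := by ring
  rcases cases_s s with ⟨t, h1, h2, rfl⟩ | ⟨t, h1, h2, rfl⟩ | ⟨h1, h2, h3⟩
  · rw [VV_rwell h1 h2, VV_lwell h1 h2]
    refine (key t h1 h2).trans (le_of_eq ?_)
    unfold VV2
    rw [Bf_zero_of_one_le (by linarith : (1 : ℝ) ≤ 125 + t + 125),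
      Bf_zero_of_le (by linarith : -(125 + t) - 125 ≤ -1), show 125 + t - 125 = t by ring,
      show -(125 + t) + 125 = -t by ring, Bf_neg]
    ring
  · rw [ct_neg, neg_neg, VV_rwell h1 h2, VV_lwell h1 h2, add_comm (Lp' t)]
    refine (key t h1 h2).trans (le_of_eq ?_)
    unfold VV2
    rw [Bf_zero_of_one_le (by linarith : (1 : ℝ) ≤ 125 + t + 125),
      Bf_zero_of_le (by linarith : -(125 + t) - 125 ≤ -1), show 125 + t - 125 = t by ring,
      show -(125 + t) + 125 = -t by ring, Bf_neg]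
    ring
  · rw [ct_zero h1]
    have h4 := Bf_nonneg (-s + 125)
    have h5 := Bf_nonneg (-s - 125)
    unfold VV2
    rw [h2, h3]
    linarith

theorem VV_125 : VV 125 = 4.4325 := by
  have h := VV_rwell (t := 0) (by norm_num) (by norm_num)
  rw [add_zero] at h
  rw [h]
  unfold Rp
  norm_num

theorem VV_neg_125 : VV (-125) = 1.983125 := by
  have h := VV_lwell (t := 0) (by norm_num) (by norm_num)
  rw [add_zero] at h
  rw [h]
  unfold Lp'
  norm_num

end Pool.Agent.Work.MP_6d3bed_an
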