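import Mathlib
import Pool.Agent.Work.MP_6d3bed_an.Radial

set_option autoImplicit false

open MeasureTheory Filter Topology Set

namespace Pool.Agent.Work.MP_6d3bed_an

theorem isBounded_ann (L : ℝ) : Bornology.IsBounded (ann L) := by
  rw [Metric.isBounded_iff_subset_closedBall (0 : Plane)]
  exact ⟨Real.exp L, fun x hx => by rw [mem_closedBall_zero_iff]; exact hx.2.le⟩

theorem isConnected_ann {L : ℝ} (hL : 0 < L) : IsConnected (ann L) := by
  have hrank : 1 < Module.rank ℝ Plane := by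
    rw [← Module.finrank_eq_rank ℝ Plane, finrank_euclideanSpace_fin]
    norm_num
  have h1 : IsConnected (Metric.sphere (0 : Plane) 1) := isConnected_sphere hrank 0 zero_le_one
  have h2 : IsConnected (Ioo (-L) L) := isConnected_Ioo (by linarith)
  have h3 := (h2.prod h1).image (fun p : ℝ × Plane => Real.exp p.1 • p.2) (by fun_prop)
  convert h3 using 1
  ext x
  constructor
  · intro hx
    have hn : 0 < ‖x‖ := norm_pos_iff.2 (ne_zero_of_mem_ann hx)
    refine ⟨(Real.log ‖x‖, ‖x‖⁻¹ • x), ⟨log_mem_of_mem_ann hx, ?_⟩, ?_⟩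
    · rw [mem_sphere_zero_iff_norm, norm_smul, norm_inv, norm_norm]
      field_simp
    · simp only
      rw [Real.exp_log hn, smul_smul, mul_inv_cancel₀ hn.ne', one_smul]
  · rintro ⟨⟨s, y⟩, ⟨hs, hy⟩, rfl⟩
    simp only at hs hy ⊢
    rw [mem_sphere_zero_iff_norm] at hy
    have e : ‖Real.exp s • y‖ = Real.exp s := by
      rw [norm_smul, hy, mul_one, Real.norm_eq_abs, Real.abs_exp]
    unfold ann
    rw [mem_ofPred_eq, e]
    exact ⟨Real.exp_lt_exp.2 hs.1, Real.exp_lt_exp.2 hs.2⟩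

theorem closure_ann {L : ℝ} (hL : 0 < L) :
    closure (ann L) = {x : Plane | Real.exp (-L) ≤ ‖x‖ ∧ ‖x‖ ≤ Real.exp L} := by
  apply Subset.antisymm
  · apply closure_minimal
    · exact fun x hx => ⟨hx.1.le, hx.2.le⟩
    · exact (isClosed_le continuous_const continuous_norm).inter
        (isClosed_le continuous_norm continuous_const)
  · rintro x ⟨h1, h2⟩
    have hn : 0 < ‖x‖ := lt_of_lt_of_le (Real.exp_pos _) h1
    have hne : Real.exp (-L) < Real.exp L := Real.exp_lt_exp.2 (by linarith)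
    have h3 : ‖x‖ ∈ closure (Ioo (Real.exp (-L)) (Real.exp L)) := by
      rw [closure_Ioo hne.ne]; exact ⟨h1, h2⟩
    have h4 : Continuous fun t : ℝ => (t / ‖x‖) • x := by fun_prop
    have h5 := map_mem_closure (t := ann L) h4 h3 (by
      intro t ht
      have ht0 : 0 < t := lt_trans (Real.exp_pos _) ht.1
      have e : ‖(t / ‖x‖) • x‖ = t := by
        rw [norm_smul, Real.norm_eq_abs, abs_of_pos (div_pos ht0 hn)]
        field_simp
      unfold ann
      rw [mem_ofPred_eq, e]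
      exact ht)
    have e : (‖x‖ / ‖x‖) • x = x := by rw [div_self hn.ne', one_smul]
    rwa [e] at h5

theorem frontier_ann {L : ℝ} (hL : 0 < L) : frontier (ann L) =
    Metric.sphere 0 (Real.exp (-L)) ∪ Metric.sphere 0 (Real.exp L) := by
  rw [(isOpen_ann L).frontier_eq, closure_ann hL]
  have hne : Real.exp (-L) < Real.exp L := Real.exp_lt_exp.2 (by linarith)
  ext x
  simp only [Set.mem_sdiff, Set.mem_ofPred_eq, mem_union, mem_sphere_zero_iff_norm, ann, not_and_or, not_lt]
  constructor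
  · rintro ⟨⟨h1, h2⟩, h3 | h3⟩
    · exact Or.inl (le_antisymm h3 h1)
    · exact Or.inr (le_antisymm h2 h3)
  · rintro (h | h)
    · rw [h]; exact ⟨⟨le_rfl, hne.le⟩, Or.inl le_rfl⟩
    · rw [h]; exact ⟨⟨hne.le, le_rfl⟩, Or.inr le_rfl⟩

noncomputable def pt (s : ℝ) : Plane := EuclideanSpace.single 0 (Real.exp s)

theorem norm_pt (s : ℝ) : ‖pt s‖ = Real.exp s := by
  unfold pt
  simp

theorem log_norm_pt (s : ℝ) : Real.log ‖pt s‖ = s := by
  rw [norm_pt, Real.log_exp]

theorem pt_mem {L s : ℝ} (h : s ∈ Ioo (-L) L) : pt s ∈ ann L := by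
  unfold ann
  rw [mem_ofPred_eq, norm_pt]
  exact ⟨Real.exp_lt_exp.2 h.1, Real.exp_lt_exp.2 h.2⟩

/-- two continuous functions of `log |x|` which agree a.e. on the annulus agree everywhere -/
theorem eq_of_ae {L : ℝ} {f g : Plane → ℝ} (hf : ContinuousOn f (ann L))
    (hg : ContinuousOn g (ann L)) (h : ∀ᵐ x ∂(volume.restrict (ann L)), f x = g x) {s : ℝ}
    (hs : s ∈ Ioo (-L) L) : f (pt s) = g (pt s) :=
  Measure.eqOn_open_of_ae_eq h (isOpen_ann L) hf hg (pt_mem hs)

end Pool.Agent.Work.MP_6d3bed_an
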