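import Mathlib
import Pool.Agent.Work.MP_6d3bed_an.Sobolev

set_option autoImplicit false

open MeasureTheory Filter Topology Set
open scoped ENNReal ContDiff

namespace Pool.Agent.Work.MP_6d3bed_an

theorem abs_div_norm_sq_le {L a C : ℝ} (ha : |a| ≤ C) {x : Plane} (hx : x ∈ ann L) :
    |a / ‖x‖ ^ 2| ≤ C * Real.exp L ^ 2 := by
  have hn : 0 < ‖x‖ := norm_pos_iff.2 (ne_zero_of_mem_ann hx)
  have hC0 : 0 ≤ C := (abs_nonneg _).trans ha
  rw [abs_div, abs_of_nonneg (by positivity : (0 : ℝ) ≤ ‖x‖ ^ 2), div_eq_mul_inv]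
  apply mul_le_mul ha _ (by positivity) hC0
  rw [← inv_pow]
  apply pow_le_pow_left₀ (by positivity)
  rw [inv_le_comm₀ hn (Real.exp_pos _), ← Real.exp_neg]
  exact exp_neg_le_norm hx

theorem integrable_bdd_mul {L : ℝ} {g v : Plane → ℝ} (hg : ContinuousOn g (ann L)) {M : ℝ}
    (hM : ∀ x ∈ ann L, |g x| ≤ M) (hv : MemLp v 2 (volume.restrict (ann L))) :
    Integrable (fun x => g x * v x) (volume.restrict (ann L)) := by
  have h1 : Integrable v (volume.restrict (ann L)) := hv.integrable (by norm_num)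
  refine (h1.norm.const_mul M).mono' ((aesm_of_continuousOn hg).mul h1.aestronglyMeasurable) ?_
  apply ae_ann
  intro x hx
  rw [norm_mul]
  exact mul_le_mul_of_nonneg_right (hM x hx) (norm_nonneg _)

/-- continuous functions of `log |x|` divided by `|x|^2` -/
noncomputable def wt (c : ℝ → ℝ) (x : Plane) : ℝ := c (Real.log ‖x‖) / ‖x‖ ^ 2

theorem continuousOn_wt {L : ℝ} {c : ℝ → ℝ} (hc : ContinuousOn c (Ioo (-L) L)) :
    ContinuousOn (wt c) (ann L) :=
  ContinuousOn.div (f := fun x : Plane => c (Real.log ‖x‖)) (continuousOn_rad hc) (by fun_prop)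
    (fun x hx => pow_ne_zero 2 (norm_ne_zero_iff.2 (ne_zero_of_mem_ann hx)))

theorem isSolution_of_1d {L : ℝ} (hL : 0 < L) {W W1 W2 : ℝ → ℝ} (h1 : ∀ s, HasDerivAt W (W1 s) s)
    (h2 : ∀ s, HasDerivAt W1 (W2 s) s) (h2c : Continuous W2) (hm : W (-L) = 1) (hp : W L = 1)
    (hge : ∀ s ∈ Icc (-L) L, 1 ≤ W s) {c h : ℝ → ℝ} (hc : Continuous c) (hh : Continuous h)
    {lam : ℝ} (heq : ∀ s ∈ Ioo (-L) L, -W2 s = W s * (lam * c s * Real.log (W s) + h s)) :
    IsSolution (ann L) (wt c) (wt h) (fun _ => 1) lam (rad fun s => Real.log (W s)) := by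
  have hWc : Continuous W := continuous_iff_continuousAt.2 fun s => (h1 s).continuousAt
  have hW1c : Continuous W1 := continuous_iff_continuousAt.2 fun s => (h2 s).continuousAt
  have hne : ∀ s ∈ Icc (-L) L, W s ≠ 0 := fun s hs => by
    have := hge s hs
    intro h0
    rw [h0] at this
    norm_num at this
  set U : ℝ → ℝ := fun s => Real.log (W s) with hU
  set U1 : ℝ → ℝ := fun s => W1 s / W s with hU1
  set U2 : ℝ → ℝ := fun s => (W2 s * W s - W1 s * W1 s) / W s ^ 2 with hU2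
  have hUc : ContinuousOn U (Icc (-L) L) := ContinuousOn.log hWc.continuousOn hne
  have hU1c : ContinuousOn U1 (Icc (-L) L) := hW1c.continuousOn.div hWc.continuousOn hne
  have hU2c : ContinuousOn U2 (Icc (-L) L) :=
    ContinuousOn.div (by fun_prop) (by fun_prop) (fun s hs => pow_ne_zero 2 (hne s hs))
  have hd1 : ∀ s ∈ Ioo (-L) L, HasDerivAt U (U1 s) s := fun s hs =>
    (h1 s).log (hne s (Ioo_subset_Icc_self hs))
  have hd2 : ∀ s ∈ Ioo (-L) L, HasDerivAt U1 (U2 s) s := fun s hs =>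
    (h2 s).div (h1 s) (hne s (Ioo_subset_Icc_self hs))
  have hUm : U (-L) = 0 := by simp only [hU, hm, Real.log_one]
  have hUp : U L = 0 := by simp only [hU, hp, Real.log_one]
  obtain ⟨M0, hM0⟩ := isCompact_Icc.exists_bound_of_continuousOn hUc
  obtain ⟨M1, hM1⟩ := isCompact_Icc.exists_bound_of_continuousOn hU1c
  obtain ⟨M2, hM2⟩ := isCompact_Icc.exists_bound_of_continuousOn hU2c
  obtain ⟨Mc, hMc⟩ := isCompact_Icc.exists_bound_of_continuousOn (hc.continuousOn (s := Icc (-L) L))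
  obtain ⟨Mh, hMh⟩ := isCompact_Icc.exists_bound_of_continuousOn (hh.continuousOn (s := Icc (-L) L))
  have hsub : ∀ x ∈ ann L, Real.log ‖x‖ ∈ Icc (-L) L := fun x hx =>
    Ioo_subset_Icc_self (log_mem_of_mem_ann hx)
  refine ⟨⟨M0, ae_ann fun x hx => hM0 _ (hsub x hx)⟩, radG U1,
    isH10_radial hL hUc hU1c hd1 hUm hUp, ?_⟩
  intro v Gv hv _
  have hv1 := hv.1
  rw [weak_radial (C := max M1 M2) hd2 (hU2c.mono Ioo_subset_Icc_self)
    (fun s hs => (hM1 s (Ioo_subset_Icc_self hs)).trans (le_max_left _ _))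
    (fun s hs => (hM2 s (Ioo_subset_Icc_self hs)).trans (le_max_right _ _)) hv]
  have hUo : ContinuousOn U (Ioo (-L) L) := hUc.mono Ioo_subset_Icc_self
  have hU1o : ContinuousOn U1 (Ioo (-L) L) := hU1c.mono Ioo_subset_Icc_self
  have i1 : Integrable (fun x => (wt c x * rad U x) * v x) (volume.restrict (ann L)) := by
    apply integrable_bdd_mul (M := (Mc * Real.exp L ^ 2) * M0) _ _ hv1
    · exact (continuousOn_wt hc.continuousOn).mul (continuousOn_rad hUo)
    · intro x hx
      rw [abs_mul]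
      have e1 := abs_div_norm_sq_le (hMc _ (hsub x hx)) hx
      have e2 : |rad U x| ≤ M0 := hM0 _ (hsub x hx)
      exact mul_le_mul e1 e2 (abs_nonneg _) ((abs_nonneg _).trans e1)
  have i2 : Integrable (fun x => (1 * ‖radG U1 x‖ ^ 2) * v x) (volume.restrict (ann L)) := by
    apply integrable_bdd_mul (M := (M1 * Real.exp L) ^ 2) _ _ hv1
    · exact continuousOn_const.mul ((continuousOn_radG hU1o).norm.pow 2)
    · intro x hx
      have e1 := norm_radG_le (L := L) (U1 := U1) (C := M1)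
        (fun s hs => hM1 s (Ioo_subset_Icc_self hs)) hx
      rw [one_mul, abs_of_nonneg (by positivity)]
      exact pow_le_pow_left₀ (norm_nonneg _) e1 2
  have i3 : Integrable (fun x => wt h x * v x) (volume.restrict (ann L)) := by
    apply integrable_bdd_mul (M := Mh * Real.exp L ^ 2) (continuousOn_wt hh.continuousOn) _ hv1
    intro x hx
    exact abs_div_norm_sq_le (hMh _ (hsub x hx)) hx
  have i4 : Integrable (fun x => lam * (wt c x * rad U x * v x) + 1 * ‖radG U1 x‖ ^ 2 * v x)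
      (volume.restrict (ann L)) := (i1.const_mul lam).add i2
  rw [← integral_const_mul, ← integral_add (i1.const_mul lam) i2, ← integral_add i4 i3]
  apply setIntegral_congr_fun (isOpen_ann L).measurableSet
  intro x hx
  have hl := log_mem_of_mem_ann hx
  have hn : 0 < ‖x‖ := norm_pos_iff.2 (ne_zero_of_mem_ann hx)
  have e := heq _ hl
  have hW0 := hne _ (hsub x hx)
  simp only []
  rw [norm_radG_sq hx]
  simp only [wt, rad, hU2, hU1, hU]
  have e' : W2 (Real.log ‖x‖) =
    -(W (Real.log ‖x‖) * (lam * c (Real.log ‖x‖) * Real.log (W (Real.log ‖x‖)) + h (Real.log ‖x‖))) := by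
    linarith
  rw [e']
  field_simp
  ring

end Pool.Agent.Work.MP_6d3bed_an
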