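import Mathlib
import Pool.Agent.Work.MP_6d3bed_an.Barta
import Pool.Agent.Work.MP_6d3bed_an.Transform
import Pool.Agent.Work.MP_6d3bed_an.Data
import Pool.Agent.Work.MP_6d3bed_an.Domain

set_option autoImplicit false

open MeasureTheory Filter Topology Set
open scoped ENNReal ContDiff

namespace Pool.Agent.Work.MP_6d3bed_an

theorem super_of_eq {S S1 S2 k h : ℝ → ℝ} (h1 : ∀ s, HasDerivAt S (S1 s) s)
    (h2 : ∀ s, HasDerivAt S1 (S2 s) s) (hge : ∀ s ∈ Icc (-135 : ℝ) 135, 1 ≤ S s)
    (he : ∀ s ∈ Icc (-135 : ℝ) 135, S s * (k s * Real.log (S s) + h s) ≤ -S2 s) :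
    IsSuper 135 k h S := by
  refine ⟨S1, S2, ?_, fun s _ => h1 s, fun s _ => h2 s, ?_, hge⟩
  · exact (continuous_iff_continuousAt.2 fun s => (h1 s).continuousAt).continuousOn
  · intro s hs
    have hs' := Ioo_subset_Icc_self hs
    unfold FF
    rw [max_eq_left (hge s hs')]
    exact he s hs'

theorem VVn_ge_one : ∀ s ∈ Icc (-135 : ℝ) 135, 1 ≤ VV (-s) := by
  intro s hs
  apply VV_ge_one
  constructor
  · linarith [hs.2]
  · linarith [hs.1]

theorem hasDerivAt_VVn (s : ℝ) : HasDerivAt (fun s => VV (-s)) (-VV1 (-s)) s := by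
  exact ((hasDerivAt_VV (-s)).comp s (hasDerivAt_neg s)).congr_deriv (by ring)

theorem hasDerivAt_VVn1 (s : ℝ) : HasDerivAt (fun s => -VV1 (-s)) (VV2 (-s)) s := by
  exact ((hasDerivAt_VV1 (-s)).comp s (hasDerivAt_neg s)).neg.congr_deriv (by ring)

theorem VVn_eq (s : ℝ) : -VV2 (-s) = VV (-s) * (ct s * Real.log (VV (-s)) + ht s) := by
  have h := VV_eq (-s)
  rwa [ct_neg, ht_neg] at h

theorem super_VV : IsSuper 135 ct ht VV :=
  super_of_eq hasDerivAt_VV hasDerivAt_VV1 VV_ge_one fun s _ => (VV_eq s).ge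

theorem super_VVn : IsSuper 135 ct ht (fun s => VV (-s)) :=
  super_of_eq hasDerivAt_VVn hasDerivAt_VVn1 VVn_ge_one fun s _ => (VVn_eq s).ge

theorem super_VV_zero : IsSuper 135 (fun _ => 0) ht VV := by
  apply super_of_eq hasDerivAt_VV hasDerivAt_VV1 VV_ge_one
  intro s hs
  rw [VV_eq s]
  have h1 := VV_ge_one s hs
  have h2 := ct_nonneg s
  have h3 : 0 ≤ Real.log (VV s) := Real.log_nonneg h1
  apply mul_le_mul_of_nonneg_left _ (by linarith)
  have : 0 ≤ ct s * Real.log (VV s) := mul_nonneg h2 h3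
  linarith

/-- the third solution for `lam = 1` -/
theorem exists_W : ∃ W W1 W2 : ℝ → ℝ, (∀ s, HasDerivAt W (W1 s) s) ∧
      (∀ s, HasDerivAt W1 (W2 s) s) ∧ Continuous W2 ∧ W (-135) = 1 ∧ W 135 = 1 ∧
      (∀ s ∈ Icc (-135 : ℝ) 135, 1 ≤ W s) ∧
      (∀ s ∈ Icc (-135 : ℝ) 135, -W2 s = W s * (ct s * Real.log (W s) + ht s)) ∧
      W 125 < VV 125 ∧ W (-125) < VV 125 := by
  obtain ⟨W, W1, W2, h1, h2, h3, h4, h5, h6, h7, h8⟩ := exists_minimal (L := 135) (by norm_num)
    continuous_ct continuous_ht ct_nonneg ht_nonneg ct_le ht_le super_VV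
  refine ⟨W, W1, W2, h1, h2, h3, h4, h5, h6, ?_, ?_, ?_⟩
  · intro s hs
    rw [h7 s hs]
    unfold FF
    rw [max_eq_left (h6 s hs)]
  · have := h8 _ super_VVn 125 (by constructor <;> norm_num)
    rw [VV_neg_125] at this
    rw [VV_125]
    linarith
  · have := h8 _ super_VV (-125) (by constructor <;> norm_num)
    rw [VV_neg_125] at this
    rw [VV_125]
    linarith

/-- the solution for `lam = 0` -/
theorem exists_W0 : ∃ W W1 W2 : ℝ → ℝ, (∀ s, HasDerivAt W (W1 s) s) ∧
      (∀ s, HasDerivAt W1 (W2 s) s) ∧ Continuous W2 ∧ W (-135) = 1 ∧ W 135 = 1 ∧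
      (∀ s ∈ Icc (-135 : ℝ) 135, 1 ≤ W s) ∧
      (∀ s ∈ Icc (-135 : ℝ) 135, -W2 s = W s * (0 * ct s * Real.log (W s) + ht s)) := by
  obtain ⟨W, W1, W2, h1, h2, h3, h4, h5, h6, h7, h8⟩ := exists_minimal (L := 135) (by norm_num)
    (k := fun _ => 0) continuous_const continuous_ht (fun _ => le_rfl) ht_nonneg
    (fun _ => zero_le_one) ht_le super_VV_zero
  refine ⟨W, W1, W2, h1, h2, h3, h4, h5, h6, ?_⟩
  intro s hs
  rw [h7 s hs]
  unfold FF
  ring

theorem continuousOn_u {W W1 : ℝ → ℝ} (h1 : ∀ s, HasDerivAt W (W1 s) s)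
    (hge : ∀ s ∈ Icc (-135 : ℝ) 135, 1 ≤ W s) :
    ContinuousOn (rad fun s => Real.log (W s)) (ann 135) := by
  apply continuousOn_rad
  apply ContinuousOn.log
  · exact (continuous_iff_continuousAt.2 fun s => (h1 s).continuousAt).continuousOn
  · intro s hs
    have := hge s (Ioo_subset_Icc_self hs)
    intro h
    rw [h] at this
    norm_num at this

theorem ne_of_lt {W W' W1 W1' : ℝ → ℝ} (h1 : ∀ s, HasDerivAt W (W1 s) s)
    (h1' : ∀ s, HasDerivAt W' (W1' s) s) (hge : ∀ s ∈ Icc (-135 : ℝ) 135, 1 ≤ W s)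
    (hge' : ∀ s ∈ Icc (-135 : ℝ) 135, 1 ≤ W' s) {s : ℝ} (hs : s ∈ Ioo (-135 : ℝ) 135)
    (hlt : W s < W' s) :
    ¬ (∀ᵐ x ∂(volume.restrict (ann 135)),
      rad (fun s => Real.log (W s)) x = rad (fun s => Real.log (W' s)) x) := by
  intro h
  have h2 := eq_of_ae (continuousOn_u h1 hge) (continuousOn_u h1' hge') h hs
  simp only [rad, log_norm_pt] at h2
  have h3 := hge s (Ioo_subset_Icc_self hs)
  exact absurd h2 (Real.log_lt_log (by linarith) hlt).ne

theorem bound_wt {c : ℝ → ℝ} (hc0 : ∀ s, 0 ≤ c s) (hc1 : ∀ s, c s ≤ 1) {x : Plane}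
    (hx : x ∈ ann 135) : ‖wt c x‖ ≤ 1 * Real.exp 135 ^ 2 := by
  apply abs_div_norm_sq_le _ hx
  rw [abs_of_nonneg (hc0 _)]
  exact hc1 _

theorem wt_nonneg {c : ℝ → ℝ} (hc0 : ∀ s, 0 ≤ c s) (x : Plane) : 0 ≤ wt c x := by
  unfold wt
  exact div_nonneg (hc0 _) (by positivity)

theorem wt_pt_ne {c : ℝ → ℝ} {s : ℝ} (h : c s ≠ 0) : wt c (pt s) ≠ 0 := by
  unfold wt
  rw [log_norm_pt, norm_pt]
  exact div_ne_zero h (by positivity)

theorem assumptionA : AssumptionA (ann 135) (wt ct) (wt ht) (fun _ => 1) := by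
  refine ⟨⟨3, by norm_num, ?_, ?_⟩, ?_, ?_, aestronglyMeasurable_const, 1, 1, one_pos, ?_⟩
  · exact memLp_of_bdd (continuousOn_wt continuous_ct.continuousOn)
      (fun x hx => bound_wt ct_nonneg ct_le hx) 3
  · exact memLp_of_bdd (continuousOn_wt continuous_ht.continuousOn)
      (fun x hx => bound_wt ht_nonneg ht_le hx) 3
  · exact Filter.Eventually.of_forall fun x => wt_nonneg ct_nonneg x
  · intro h
    have h2 := eq_of_ae (continuousOn_wt continuous_ct.continuousOn) continuousOn_const h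
      (s := 125) (by constructor <;> norm_num)
    exact wt_pt_ne (ct_pos (s := 125) (by norm_num) (by norm_num)).ne' h2
  · exact Filter.Eventually.of_forall fun x => ⟨le_rfl, le_rfl⟩

theorem hypH1 : HypH1 (ann 135) (wt ct) (wt ht) (fun _ => 1) := by
  obtain ⟨W, W1, W2, h1, h2, h3, h4, h5, h6, h7⟩ := exists_W0
  refine ⟨rad fun s => Real.log (W s), ?_, ?_, ?_⟩
  · exact isSolution_of_1d (by norm_num) h1 h2 h3 h4 h5 h6 continuous_ct continuous_ht
      (fun s hs => h7 s (Ioo_subset_Icc_self hs))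
  · apply ae_ann
    intro x hx
    exact Real.log_nonneg (h6 _ (Ioo_subset_Icc_self (log_mem_of_mem_ann hx)))
  · intro h
    have e : ∀ s ∈ Ioo (124 : ℝ) 126, W s = 1 := by
      intro s hs
      have hsI : s ∈ Ioo (-135 : ℝ) 135 := ⟨by linarith [hs.1], by linarith [hs.2]⟩
      have hg : ContinuousOn (fun x => wt ct x * rad (fun s => Real.log (W s)) x) (ann 135) :=
        (continuousOn_wt continuous_ct.continuousOn).mul (continuousOn_u h1 h6)
      have h8 := eq_of_ae hg continuousOn_const h hsI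
      have h9 : |s| = s := abs_of_pos (by linarith [hs.1])
      have h10 : wt ct (pt s) ≠ 0 :=
        wt_pt_ne (ct_pos (by rw [h9]; exact hs.1) (by rw [h9]; exact hs.2)).ne'
      have h11 := (mul_eq_zero.1 h8).resolve_left h10
      simp only [rad, log_norm_pt] at h11
      have h12 := h6 s (Ioo_subset_Icc_self hsI)
      rcases Real.log_eq_zero.1 h11 with h | h | h <;> linarith
    have e1 : ∀ s ∈ Ioo (124 : ℝ) 126, W1 s = 0 := by
      intro s hs
      have h8 : W =ᶠ[𝓝 s] fun _ => 1 := by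
        filter_upwards [isOpen_Ioo.mem_nhds hs] with y hy using e y hy
      have h9 := (h1 s).congr_of_eventuallyEq h8.symm
      exact h9.unique (hasDerivAt_const s 1)
    have e2 : W2 125 = 0 := by
      have h8 : W1 =ᶠ[𝓝 125] fun _ => 0 := by
        filter_upwards [isOpen_Ioo.mem_nhds (show (125 : ℝ) ∈ Ioo (124 : ℝ) 126 by
          constructor <;> norm_num)] with y hy using e1 y hy
      have h9 := (h2 125).congr_of_eventuallyEq h8.symm
      exact h9.unique (hasDerivAt_const 125 0)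
    have h8 := h7 125 (by constructor <;> norm_num)
    rw [e2, e 125 (by constructor <;> norm_num)] at h8
    have h9 := ht_pos (s := 125) (by norm_num) (by norm_num)
    rw [Real.log_one] at h8
    linarith

/-- the spectral inequality -/
theorem spectral {v : Plane → ℝ} {Gv : Plane → Plane} (hv : IsH10 (ann 135) v Gv) :
    11 / 10 * ∫ x in ann 135, wt ct x * v x ^ 2 ≤ ∫ x in ann 135, ‖Gv x‖ ^ 2 := by
  have hVV2 := continuous_VV2
  have h := barta (L := 135) (Φ := fun s => VV s + VV (-s) - 3 / 2)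
    (Φ1 := fun s => VV1 s + -VV1 (-s)) (Φ2 := fun s => VV2 s + VV2 (-s))
    (c := fun s => 11 / 10 * ct s) (C := 11 / 10)
    (fun s _ => ((hasDerivAt_VV s).add (hasDerivAt_VVn s)).sub_const _)
    (fun s _ => (hasDerivAt_VV1 s).add (hasDerivAt_VVn1 s))
    (hVV2.add (hVV2.comp continuous_neg)).continuousOn
    (by
      intro s hs
      have h1 := VV_ge_one s (Ioo_subset_Icc_self hs)
      have h2 := VVn_ge_one s (Ioo_subset_Icc_self hs)
      linarith)
    (continuous_const.mul continuous_ct).continuousOn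
    (fun s _ => by linarith [ct_le s]) (fun s _ => by linarith [ct_nonneg s])
    (fun s _ => barta_pt) hv
  have e : ∫ x in ann 135, (11 / 10 * ct (Real.log ‖x‖) / ‖x‖ ^ 2) * v x ^ 2 =
      11 / 10 * ∫ x in ann 135, wt ct x * v x ^ 2 := by
    rw [← integral_const_mul]
    congr 1
    funext x
    unfold wt
    ring
  rw [← e]
  exact h

theorem integral_pos_aux {v : Plane → ℝ} (hv : MemLp v 2 (volume.restrict (ann 135)))
    (hpos : ∀ᵐ x ∂(volume.restrict (ann 135)), 0 < v x) :
    0 < ∫ x in ann 135, wt ct x * v x ^ 2 := by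
  have hint : Integrable (fun x => wt ct x * v x ^ 2) (volume.restrict (ann 135)) := by
    have h1 : Integrable (fun x => v x ^ 2) (volume.restrict (ann 135)) := hv.integrable_sq
    refine (h1.norm.const_mul (1 * Real.exp 135 ^ 2)).mono'
      ((aesm_of_continuousOn (continuousOn_wt continuous_ct.continuousOn)).mul
        h1.aestronglyMeasurable) ?_
    apply ae_ann
    intro x hx
    rw [norm_mul]
    exact mul_le_mul_of_nonneg_right (bound_wt ct_nonneg ct_le hx) (norm_nonneg _)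
  have hnn : 0 ≤ᵐ[volume.restrict (ann 135)] fun x => wt ct x * v x ^ 2 :=
    Filter.Eventually.of_forall fun x => mul_nonneg (wt_nonneg ct_nonneg x) (sq_nonneg _)
  refine lt_of_le_of_ne (integral_nonneg_of_ae hnn) ?_
  intro h0
  have h1 := (integral_eq_zero_iff_of_nonneg_ae hnn hint).1 h0.symm
  have h2 : ∀ᵐ x ∂(volume.restrict (ann 135)), wt ct x = 0 := by
    filter_upwards [h1, hpos] with x hx hx'
    simp only [Pi.zero_apply] at hx
    exact (mul_eq_zero.1 hx).resolve_right (by positivity)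
  exact assumptionA.2.2.1 h2

theorem principal_gt {γ : ℝ} (h : IsPrincipalEigenvalue (ann 135) (wt ct) γ) : 1 < γ := by
  obtain ⟨φ, Gφ, hφ, hpos, heq⟩ := h
  have h1 := heq φ Gφ hφ
  have h2 := spectral hφ
  have h3 := integral_pos_aux hφ.1 hpos
  have e1 : ∫ x in ann 135, inner ℝ (Gφ x) (Gφ x) = ∫ x in ann 135, ‖Gφ x‖ ^ 2 := by
    congr 1
    funext x
    exact real_inner_self_eq_norm_sq _
  have e2 : ∫ x in ann 135, wt ct x * φ x * φ x = ∫ x in ann 135, wt ct x * φ x ^ 2 := by
    congr 1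
    funext x
    ring
  rw [e1, e2] at h1
  rw [h1] at h2
  by_contra hγ
  rw [not_lt] at hγ
  nlinarith

theorem gamma1_gt : 1 < gamma1 (ann 135) (wt ct) := by
  have h : (11 / 10 : ℝ) ≤ gamma1 (ann 135) (wt ct) := by
    unfold gamma1
    apply le_csInf
    · -- nonempty
      have hs := isSolution_of_1d (L := 135) (by norm_num) hasDerivAt_VV hasDerivAt_VV1
        continuous_VV2 VV_left VV_right VV_ge_one continuous_ct continuous_ht (lam := 1)
        (fun s _ => by rw [one_mul]; exact VV_eq s)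
      obtain ⟨_, G, hG, _⟩ := hs
      refine ⟨_, _, G, hG, ?_, rfl⟩
      set g : Plane → ℝ := fun x => wt ct x * rad (fun s => Real.log (VV s)) x ^ 2 with hg
      have hgc : ContinuousOn g (ann 135) :=
        (continuousOn_wt continuous_ct.continuousOn).mul
          ((continuousOn_u hasDerivAt_VV VV_ge_one).pow 2)
      have hnn : 0 ≤ᵐ[volume.restrict (ann 135)] g :=
        Filter.Eventually.of_forall fun x => mul_nonneg (wt_nonneg ct_nonneg x) (sq_nonneg _)
      have hint : Integrable g (volume.restrict (ann 135)) := by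
        have h1 : Integrable (fun x => rad (fun s => Real.log (VV s)) x ^ 2)
          (volume.restrict (ann 135)) := hG.1.integrable_sq
        refine (h1.norm.const_mul (1 * Real.exp 135 ^ 2)).mono'
          ((aesm_of_continuousOn (continuousOn_wt continuous_ct.continuousOn)).mul
            h1.aestronglyMeasurable) ?_
        apply ae_ann
        intro x hx
        rw [norm_mul]
        exact mul_le_mul_of_nonneg_right (bound_wt ct_nonneg ct_le hx) (norm_nonneg _)
      refine lt_of_le_of_ne (integral_nonneg_of_ae hnn) ?_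
      intro h0
      have h1 := (integral_eq_zero_iff_of_nonneg_ae hnn hint).1 h0.symm
      have h2 := eq_of_ae hgc continuousOn_const h1 (s := 125) (by constructor <;> norm_num)
      simp only [hg, rad, log_norm_pt] at h2
      have h3 := wt_pt_ne (ct_pos (s := 125) (by norm_num) (by norm_num)).ne'
      have h4 := (mul_eq_zero.1 h2).resolve_left h3
      have h5 : 0 < Real.log (VV 125) := Real.log_pos (by rw [VV_125]; norm_num)
      have h6 := pow_pos h5 2
      linarith
    · rintro t ⟨v, Gv, hv, hpos, rfl⟩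
      rw [le_div_iff₀ hpos]
      exact spectral hv
  linarith

/-- main theorem -/
theorem main : ∃ c h : Plane → ℝ,
    AssumptionA (ann 135) c h (fun _ => 1) ∧ (∀ x, 0 ≤ h x) ∧
    HypH1 (ann 135) c h (fun _ => 1) ∧ 1 < gamma1 (ann 135) c ∧
    (∀ γ, IsPrincipalEigenvalue (ann 135) c γ → 1 < γ) ∧
    ∃ u₁ u₂ u₃ : Plane → ℝ, IsSolution (ann 135) c h (fun _ => 1) 1 u₁ ∧
      IsSolution (ann 135) c h (fun _ => 1) 1 u₂ ∧ IsSolution (ann 135) c h (fun _ => 1) 1 u₃ ∧
      ¬ (∀ᵐ x ∂(volume.restrict (ann 135)), u₁ x = u₂ x) ∧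
      ¬ (∀ᵐ x ∂(volume.restrict (ann 135)), u₁ x = u₃ x) ∧
      ¬ (∀ᵐ x ∂(volume.restrict (ann 135)), u₂ x = u₃ x) := by
  obtain ⟨W, W1, W2, h1, h2, h3, h4, h5, h6, h7, h8, h9⟩ := exists_W
  refine ⟨wt ct, wt ht, assumptionA, fun x => wt_nonneg ht_nonneg x, hypH1, gamma1_gt,
    fun γ hγ => principal_gt hγ, rad fun s => Real.log (W s), rad fun s => Real.log (VV s),
    rad fun s => Real.log (VV (-s)), ?_, ?_, ?_, ?_, ?_, ?_⟩
  · exact isSolution_of_1d (by norm_num) h1 h2 h3 h4 h5 h6 continuous_ct continuous_ht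
      (fun s hs => by rw [one_mul]; exact h7 s (Ioo_subset_Icc_self hs))
  · exact isSolution_of_1d (L := 135) (by norm_num) hasDerivAt_VV hasDerivAt_VV1
        continuous_VV2 VV_left VV_right VV_ge_one continuous_ct continuous_ht (lam := 1)
        (fun s _ => by rw [one_mul]; exact VV_eq s)
  · exact isSolution_of_1d (L := 135) (by norm_num) hasDerivAt_VVn hasDerivAt_VVn1
        (continuous_VV2.comp continuous_neg) (by simp only [neg_neg]; exact VV_right)
        VV_left VVn_ge_one continuous_ct continuous_ht (lam := 1)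
        (fun s _ => by rw [one_mul]; exact VVn_eq s)
  · exact ne_of_lt h1 hasDerivAt_VV h6 VV_ge_one (s := 125) (by constructor <;> norm_num) h8
  · refine ne_of_lt h1 hasDerivAt_VVn h6 VVn_ge_one (s := -125) (by constructor <;> norm_num) ?_
    rw [neg_neg]
    exact h9
  · intro h
    refine ne_of_lt hasDerivAt_VVn hasDerivAt_VV VVn_ge_one VV_ge_one (s := 125)
      (by constructor <;> norm_num) ?_ ?_
    · rw [VV_125, VV_neg_125]
      norm_num
    · filter_upwards [h] with x hx using hx.symm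

end Pool.Agent.Work.MP_6d3bed_an
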